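import Pool.Agent.Helper31.QD.Shrink
import Pool.Agent.Helper38.QD.Inv

/-!
# Model counts: pumping homogeneous families of blocks
-/

set_option autoImplicit false

namespace Pool.Agent.Helper38.MC

open FirstOrder FirstOrder.Language Pool.Agent.Helper20.Spectra Pool.Agent.Helper58.QD
open Pool.Agent.Helper31.QD Pool.Agent.Helper38.QD

variable {S : Type} {ar : S → ℕ} {N T ι κ : Type}

/-- the map on the blocks -/
def mp (g : ι → κ) : N ⊕ ι × T → N ⊕ κ × T := Sum.map id (Prod.map g id)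

/-- the block permutation -/
def bp (π : Equiv.Perm κ) : Equiv.Perm (N ⊕ κ × T) :=
  Equiv.sumCongr (Equiv.refl N) (Equiv.prodCongr π (Equiv.refl T))

theorem bp_eq (π : Equiv.Perm κ) : (bp π : N ⊕ κ × T → N ⊕ κ × T) = mp π := by
  funext x
  rcases x with x | ⟨i, x⟩ <;> rfl

theorem mp_mp {μ : Type} (g : ι → κ) (h : κ → μ) (x : N ⊕ ι × T) : mp h (mp g x) = mp (h ∘ g) x := by
  rcases x with x | ⟨i, x⟩ <;> rfl

/-- the used indices -/
def used {k : ℕ} (t : Fin k → N ⊕ κ × T) : Set κ := {i | ∃ a x, t a = Sum.inr (i, x)}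

theorem mp_congr {k : ℕ} {t : Fin k → N ⊕ κ × T} {g g' : κ → ι} (h : ∀ i ∈ used t, g i = g' i) :
    mp g ∘ t = mp g' ∘ t := by
  funext a
  show mp g (t a) = mp g' (t a)
  rcases e : t a with x | ⟨i, x⟩
  · rfl
  · show Sum.inr (g i, x) = Sum.inr (g' i, x)
    rw [h i ⟨a, x, e⟩]

/-- the extension to more blocks -/
def ext (R : Interp S ar (N ⊕ ι × T)) (κ : Type) : Interp S ar (N ⊕ κ × T) := fun s t =>
  ∃ g : κ → ι, Set.InjOn g (used t) ∧ R s (mp g ∘ t)

theorem inv_choice [Finite ι] {R : Interp S ar (N ⊕ ι × T)} (hR : ∀ π : Equiv.Perm ι, Au R (bp π))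
    {s : S} (t : Fin (ar s) → N ⊕ κ × T) {g g' : κ → ι} (h : Set.InjOn g (used t))
    (h' : Set.InjOn g' (used t)) : R s (mp g ∘ t) ↔ R s (mp g' ∘ t) := by
  classical
  have := Fintype.ofFinite ι
  -- a permutation which moves `g` to `g'`
  let e1 : {i : ι // i ∈ g '' used t} ≃ {i : ι // i ∈ g' '' used t} :=
    (Equiv.Set.imageOfInjOn g (used t) h).symm.trans (Equiv.Set.imageOfInjOn g' (used t) h')
  obtain ⟨π, hπ⟩ : ∃ π : Equiv.Perm ι, ∀ i ∈ used t, π (g i) = g' i := by
    refine ⟨e1.extendSubtype, fun i hi => ?_⟩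
    rw [Equiv.extendSubtype_apply_of_mem e1 (g i) ⟨i, hi, rfl⟩]
    have : (⟨g i, ⟨i, hi, rfl⟩⟩ : {i : ι // i ∈ g '' used t}) =
        Equiv.Set.imageOfInjOn g (used t) h ⟨i, hi⟩ := rfl
    rw [this]
    show ((Equiv.Set.imageOfInjOn g' (used t) h') ((Equiv.Set.imageOfInjOn g (used t) h).symm
      (Equiv.Set.imageOfInjOn g (used t) h ⟨i, hi⟩)) : ι) = g' i
    rw [Equiv.symm_apply_apply]
    rfl
  rw [← hR π s (mp g ∘ t)]
  have : bp π ∘ (mp g ∘ t) = mp g' ∘ t := by
    rw [bp_eq]
    funext a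
    show mp π (mp g (t a)) = _
    rw [mp_mp]
    exact congrFun (mp_congr (t := t) (g := π ∘ g) (g' := g') hπ) a
  rw [this]

theorem used_bp {k : ℕ} (π : Equiv.Perm κ) (t : Fin k → N ⊕ κ × T) (i : κ) :
    i ∈ used (bp π ∘ t) ↔ π.symm i ∈ used t := by
  rw [bp_eq]
  constructor
  · rintro ⟨a, x, h⟩
    have h' : mp π (t a) = Sum.inr (i, x) := h
    rcases e : t a with y | ⟨j, y⟩
    · rw [e] at h'
      exact absurd h' (by simp [mp])
    · rw [e] at h'
      have h1 : π j = i := congrArg Prod.fst (Sum.inr_injective h')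
      refine ⟨a, y, ?_⟩
      rw [e, ← h1, Equiv.symm_apply_apply]
  · rintro ⟨a, x, h⟩
    refine ⟨a, x, ?_⟩
    show mp π (t a) = _
    rw [h]
    show Sum.inr (π (π.symm i), x) = _
    rw [Equiv.apply_symm_apply]

theorem ext_inv {R : Interp S ar (N ⊕ ι × T)} (π : Equiv.Perm κ) : Au (ext R κ) (bp π) := by
  intro s t
  constructor
  · rintro ⟨g, h1, h2⟩
    refine ⟨g ∘ π, ?_, ?_⟩
    · intro i hi j hj h
      have hi' : π i ∈ used (bp π ∘ t) := (used_bp π t _).2 (by rwa [Equiv.symm_apply_apply])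
      have hj' : π j ∈ used (bp π ∘ t) := (used_bp π t _).2 (by rwa [Equiv.symm_apply_apply])
      exact π.injective (h1 hi' hj' h)
    · have : mp (g ∘ π) ∘ t = mp g ∘ (bp π ∘ t) := by
        rw [bp_eq]
        funext a
        exact (mp_mp π g (t a)).symm
      rw [this]
      exact h2
  · rintro ⟨g, h1, h2⟩
    refine ⟨g ∘ π.symm, ?_, ?_⟩
    · intro i hi j hj h
      exact π.symm.injective (h1 ((used_bp π t _).1 hi) ((used_bp π t _).1 hj) h)
    · have : mp (g ∘ π.symm) ∘ (bp π ∘ t) = mp g ∘ t := by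
        rw [bp_eq]
        funext a
        show mp (g ∘ π.symm) (mp π (t a)) = _
        rw [mp_mp]
        have : (g ∘ π.symm) ∘ π = g := by
          funext i
          simp
        rw [this]
        rfl
      rw [this]
      exact h2

theorem ext_res [Finite ι] [Nonempty ι] {R : Interp S ar (N ⊕ ι × T)}
    (hR : ∀ π : Equiv.Perm ι, Au R (bp π)) (j : ι → κ) (hj : Function.Injective j) {s : S}
    (t : Fin (ar s) → N ⊕ ι × T) : ext R κ s (mp j ∘ t) ↔ R s t := by
  have e0 : ∀ g : κ → ι, mp g ∘ (mp j ∘ t) = mp (g ∘ j) ∘ t := by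
    intro g
    funext a
    exact mp_mp j g (t a)
  have e1 : mp (id : ι → ι) ∘ t = t := by
    funext a
    show mp id (t a) = t a
    rcases t a with x | ⟨i, x⟩ <;> rfl
  have hu : ∀ i, i ∈ used t → j i ∈ used (mp j ∘ t) := by
    rintro i ⟨a, x, h⟩
    refine ⟨a, x, ?_⟩
    show mp j (t a) = _
    rw [h]
    rfl
  have hu' : ∀ i, i ∈ used (mp j ∘ t) → ∃ i' ∈ used t, j i' = i := by
    rintro i ⟨a, x, h⟩
    have h' : mp j (t a) = Sum.inr (i, x) := h
    rcases e : t a with y | ⟨l, y⟩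
    · rw [e] at h'
      exact absurd h' (by simp [mp])
    · rw [e] at h'
      exact ⟨l, ⟨a, y, e⟩, congrArg Prod.fst (Sum.inr_injective h')⟩
  constructor
  · rintro ⟨g, h1, h2⟩
    rw [e0] at h2
    rw [← e1]
    refine (inv_choice hR t (fun a ha b hb h => ?_) (fun a _ b _ h => h)).1 h2
    exact hj (h1 (hu a ha) (hu b hb) h)
  · intro h
    refine ⟨Function.invFun j, ?_, ?_⟩
    · intro a ha b hb h
      obtain ⟨a', _, rfl⟩ := hu' a ha
      obtain ⟨b', _, rfl⟩ := hu' b hb
      rw [Function.leftInverse_invFun hj, Function.leftInverse_invFun hj] at h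
      rw [h]
    · rw [e0]
      have : Function.invFun j ∘ j = id := funext (Function.leftInverse_invFun hj)
      rw [this, e1]
      exact h

theorem term_mp {R' : Interp S ar (N ⊕ κ × T)} {R : Interp S ar (N ⊕ ι × T)} (j : ι → κ) {n : ℕ}
    (t : (RelLang S ar).Term (Empty ⊕ Fin n)) (v : Empty → N ⊕ ι × T) (v' : Empty → N ⊕ κ × T)
    (xs : Fin n → N ⊕ ι × T) :
    @Language.Term.realize _ (N ⊕ κ × T) (mkS R') _ (Sum.elim v' (mp j ∘ xs)) t =
      mp j (@Language.Term.realize _ (N ⊕ ι × T) (mkS R) _ (Sum.elim v xs) t) := by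
  cases t with
  | var x =>
    rcases x with x | x
    · exact x.elim
    · rfl
  | func f _ => exact Empty.elim f

theorem mp_inj (j : ι → κ) (hj : Function.Injective j) : Function.Injective (mp j : N ⊕ ι × T → N ⊕ κ × T) :=
  Sum.map_injective.2 ⟨fun _ _ h => h, Function.Injective.prodMap hj fun _ _ h => h⟩

theorem efB [Finite ι] {R' : Interp S ar (N ⊕ κ × T)} {R : Interp S ar (N ⊕ ι × T)} (j : ι → κ)
    (hj : Function.Injective j) (hinv : ∀ π : Equiv.Perm κ, Au R' (bp π))
    (hres : ∀ s t, R' s (mp j ∘ t) ↔ R s t) {n : ℕ} (φ : (RelLang S ar).BoundedFormula Empty n) :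
    n + qd φ ≤ Nat.card ι → ∀ (v : Empty → N ⊕ ι × T) (v' : Empty → N ⊕ κ × T)
      (xs : Fin n → N ⊕ ι × T),
    (@Language.BoundedFormula.Realize _ (N ⊕ κ × T) (mkS R') _ _ φ v' (mp j ∘ xs) ↔
      @Language.BoundedFormula.Realize _ (N ⊕ ι × T) (mkS R) _ _ φ v xs) := by
  classical
  have := Fintype.ofFinite ι
  induction φ with
  | falsum => intro _ v v' xs; exact Iff.rfl
  | @equal n t u =>
    intro _ v v' xs
    have h1 := term_mp (R' := R') (R := R) j t v v' xs
    have h2 := term_mp (R' := R') (R := R) j u v v' xs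
    show (@Language.Term.realize _ (N ⊕ κ × T) (mkS R') _ (Sum.elim v' (mp j ∘ xs)) t =
      @Language.Term.realize _ (N ⊕ κ × T) (mkS R') _ (Sum.elim v' (mp j ∘ xs)) u) ↔
      (@Language.Term.realize _ (N ⊕ ι × T) (mkS R) _ (Sum.elim v xs) t =
      @Language.Term.realize _ (N ⊕ ι × T) (mkS R) _ (Sum.elim v xs) u)
    rw [h1, h2]
    exact (mp_inj j hj).eq_iff
  | rel r ts =>
    intro _ v v' xs
    show R' r.1 (fun i => @Language.Term.realize _ (N ⊕ κ × T) (mkS R') _ (Sum.elim v' (mp j ∘ xs)) (ts (Fin.cast r.2 i))) ↔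
      R r.1 (fun i => @Language.Term.realize _ (N ⊕ ι × T) (mkS R) _ (Sum.elim v xs) (ts (Fin.cast r.2 i)))
    rw [← hres]
    simp only [term_mp (R' := R') (R := R) j _ v v' xs]
    exact Iff.rfl
  | imp f g ihf ihg =>
    intro hn v v' xs
    have h1 : qd (f.imp g) = max (qd f) (qd g) := rfl
    rw [h1] at hn
    exact imp_congr (ihf (by omega) v v' xs) (ihg (by omega) v v' xs)
  | @all n f ih =>
    intro hn v v' xs
    have h1 : qd f.all = qd f + 1 := rfl
    rw [h1] at hn
    have ih' := ih (by omega)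
    have key : ∀ x : N ⊕ ι × T, (@Language.BoundedFormula.Realize _ (N ⊕ κ × T) (mkS R') _ _ f v'
        (Fin.snoc (mp j ∘ xs) (mp j x)) ↔
        @Language.BoundedFormula.Realize _ (N ⊕ ι × T) (mkS R) _ _ f v (Fin.snoc xs x)) := by
      intro x
      rw [← ih' v v' (Fin.snoc xs x)]
      have : (mp j ∘ (Fin.snoc xs x : Fin (n + 1) → N ⊕ ι × T)) = Fin.snoc (mp j ∘ xs) (mp j x) := by
        funext i
        refine Fin.lastCases ?_ (fun l => ?_) i
        · simp
        · simp
      rw [this]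
    show (∀ a : N ⊕ κ × T, @Language.BoundedFormula.Realize _ (N ⊕ κ × T) (mkS R') _ _ f v' (Fin.snoc (mp j ∘ xs) a)) ↔
      (∀ a : N ⊕ ι × T, @Language.BoundedFormula.Realize _ (N ⊕ ι × T) (mkS R) _ _ f v (Fin.snoc xs a))
    constructor
    · intro h x
      exact (key x).1 (h (mp j x))
    · intro h x
      by_cases hx : ∃ y, x = mp j y
      · obtain ⟨y, rfl⟩ := hx
        exact (key y).2 (h y)
      · rcases x with x | ⟨i, x⟩
        · exact absurd ⟨Sum.inl x, rfl⟩ hx
        have hi : ∀ l, j l ≠ i := by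
          intro l hl
          exact hx ⟨Sum.inr (l, x), by rw [← hl]; rfl⟩
        -- a new index
        obtain ⟨l, hl⟩ : ∃ l : ι, l ∉ used xs := by
          by_contra hcon
          push Not at hcon
          choose a b hab using hcon
          have hinj : Function.Injective a := by
            intro l l' hll
            have h1 := hab l
            rw [hll, hab l'] at h1
            exact (congrArg Prod.fst (Sum.inr_injective h1)).symm
          have := Fintype.card_le_of_injective a hinj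
          rw [Fintype.card_fin, ← Nat.card_eq_fintype_card] at this
          omega
        have h4 := (key (Sum.inr (l, x))).2 (h (Sum.inr (l, x)))
        have h5 := (aut (bp (Equiv.swap i (j l))) (hinv _) f v' (Fin.snoc (mp j ∘ xs) (mp j (Sum.inr (l, x))))).2 h4
        have h6 : (bp (Equiv.swap i (j l)) ∘ (Fin.snoc (mp j ∘ xs) (mp j (Sum.inr (l, x))) : Fin (n + 1) → N ⊕ κ × T)) =
            Fin.snoc (mp j ∘ xs) (Sum.inr (i, x)) := by
          rw [bp_eq]
          funext a
          refine Fin.lastCases ?_ (fun b => ?_) a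
          · simp only [Function.comp_apply, Fin.snoc_last]
            show Sum.inr (Equiv.swap i (j l) (j l), x) = _
            rw [Equiv.swap_apply_right]
          · simp only [Function.comp_apply, Fin.snoc_castSucc]
            rcases e : xs b with y | ⟨l', y⟩
            · rfl
            · show Sum.inr (Equiv.swap i (j l) (j l'), y) = Sum.inr (j l', y)
              rw [Equiv.swap_apply_of_ne_of_ne (hi l')]
              intro h7
              exact hl ⟨b, y, by rw [e, hj h7]⟩
        rw [h6] at h5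
        exact h5

/-- a model with many exchangeable blocks can be enlarged by any number of blocks -/
theorem pumpX [Finite ι] [Nonempty ι] (χ : (RelLang S ar).Sentence) {R : Interp S ar (N ⊕ ι × T)}
    (hR : ∀ π : Equiv.Perm ι, Au R (bp π)) (hq : qd χ ≤ Nat.card ι) (j : ι → κ)
    (hj : Function.Injective j) (hM : IsMod χ R) : IsMod χ (ext R κ) := by
  have h := efB (R' := ext R κ) (R := R) j hj (fun π => ext_inv π) (fun s t => ext_res hR j hj t) χ
    (by omega) default default default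
  have e1 : (mp j ∘ (default : Fin 0 → N ⊕ ι × T)) = default := Subsingleton.elim _ _
  rw [e1] at h
  exact h.2 hM

/-- pumping on `Fin n` -/
theorem pump (χ : (RelLang S ar).Sentence) {n q t : ℕ} (R : Interp S ar (Fin n)) (hM : IsMod χ R)
    (hq0 : 1 ≤ q) (hq : qd χ ≤ q) (u : Fin q × Fin t → Fin n) (hu : Function.Injective u)
    (hR : ∀ (π : Equiv.Perm (Fin q)) (σ : Equiv.Perm (Fin n)), (∀ i x, σ (u (i, x)) = u (π i, x)) →
      (∀ z, (∀ p, u p ≠ z) → σ z = z) → Au R σ) (j : ℕ) :
    ∃ R' : Interp S ar (Fin (n + t * j)), IsMod χ R' := by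
  classical
  have : Nonempty (Fin q) := ⟨⟨0, by omega⟩⟩
  -- decomposition of the universe
  let e1 : {z : Fin n // ¬ z ∈ Set.range u} ⊕ (Fin q × Fin t) ≃ Fin n :=
    ((Equiv.sumComm _ _).trans (Equiv.sumCongr (Equiv.ofInjective u hu) (Equiv.refl _))).trans
      (Equiv.sumCompl (fun z => z ∈ Set.range u))
  have he1 : ∀ z, e1 (Sum.inl z) = z := fun z => rfl
  have he2 : ∀ p, e1 (Sum.inr p) = u p := fun p => rfl
  let R0 : Interp S ar ({z : Fin n // ¬ z ∈ Set.range u} ⊕ (Fin q × Fin t)) :=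
    fun s w => R s (e1 ∘ w)
  have hM0 : IsMod χ R0 := (isMod_equiv χ e1.symm R).1 hM
  have hR0 : ∀ π : Equiv.Perm (Fin q), Au R0 (bp π) := by
    intro π s w
    have h := hR π (e1.symm.trans ((bp π).trans e1)) (by
      intro i x
      rw [← he2]
      show e1 (bp π (e1.symm (e1 (Sum.inr (i, x))))) = _
      rw [Equiv.symm_apply_apply, bp_eq]
      rfl) (by
      intro z hz
      have : z = e1 (Sum.inl ⟨z, fun ⟨p, hp⟩ => hz p hp⟩) := rfl
      rw [this]
      show e1 (bp π (e1.symm (e1 (Sum.inl _)))) = _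
      rw [Equiv.symm_apply_apply, bp_eq]
      rfl)
    show R s (e1 ∘ (bp π ∘ w)) ↔ R s (e1 ∘ w)
    rw [← h s (e1 ∘ w)]
    have : (e1.symm.trans ((bp π).trans e1)) ∘ (e1 ∘ w) = e1 ∘ (bp π ∘ w) := by
      funext a
      show e1 (bp π (e1.symm (e1 (w a)))) = _
      rw [Equiv.symm_apply_apply]
      rfl
    rw [this]
  have h1 := pumpX (κ := Fin (q + j)) χ hR0 (by rwa [Nat.card_eq_fintype_card, Fintype.card_fin])
    (Fin.castAdd j) (Fin.castAdd_injective q j) hM0
  have hc : Fintype.card ({z : Fin n // ¬ z ∈ Set.range u} ⊕ (Fin (q + j) × Fin t)) = n + t * j := by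
    have h2 := Fintype.card_congr e1
    rw [Fintype.card_sum, Fintype.card_prod, Fintype.card_fin, Fintype.card_fin, Fintype.card_fin] at h2
    rw [Fintype.card_sum, Fintype.card_prod, Fintype.card_fin, Fintype.card_fin]
    calc _ = Fintype.card {z : Fin n // ¬ z ∈ Set.range u} + q * t + t * j := by ring
      _ = _ := by rw [h2]
  exact ⟨_, (isMod_equiv χ (Fintype.equivFinOfCardEq hc) _).1 h1⟩

end Pool.Agent.Helper38.MC
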