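import Pool.Agent.Helper31.QD.Shrink
import Pool.Agent.Helper40.MC.Defs

/-!
# Model counts for all arities: definitions and statements of the blocks
-/

set_option autoImplicit false

namespace Pool.Agent.Helper38.MC

open FirstOrder Pool.Agent.Helper20.Spectra Pool.Agent.Helper58.QD
open Pool.Agent.Helper31.QD Pool.Agent.Helper40.MC

/-- the group of the automorphisms -/
def AuG {S : Type} {ar : S → ℕ} {V : Type} (R : Interp S ar V) : Subgroup (Equiv.Perm V) where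
  carrier := {σ | Au R σ}
  mul_mem' := fun h1 h2 => h1.mul h2
  one_mem' := fun _ _ => Iff.rfl
  inv_mem' := by
    intro σ hσ s t
    have h := hσ s (⇑σ⁻¹ ∘ t)
    have e : (⇑σ ∘ (⇑σ⁻¹ ∘ t)) = t := by
      funext i
      exact σ.apply_symm_apply (t i)
    rw [e] at h
    exact h.symm

/-- evaluation of a pattern -/
def ev {V : Type} {k m : ℕ} (u : Fin k → V) (p : Fin m → V ⊕ Fin k) : Fin m → V :=
  fun i => Sum.elim id u (p i)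

open Classical in
/-- the outer elements of a pattern -/
noncomputable def out {V : Type} [Fintype V] {k m : ℕ} (p : Fin m → V ⊕ Fin k) : Finset V :=
  Finset.univ.filter (fun w => ∃ i, p i = Sum.inl w)

/-- the pattern `p` distinguishes `u` and `u'` -/
def Dis {S : Type} {ar : S → ℕ} {V : Type} {k : ℕ} (R : Interp S ar V) (u u' : Fin k → V) (s : S)
    (p : Fin (ar s) → V ⊕ Fin k) : Prop := ¬ (R s (ev u p) ↔ R s (ev u' p))

/-- the sets `out p \ c`, `p` distinguishing `u` and `u'`: among `l ^ r` disjoint ones, one is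
contained in `P` -/
def HitP {S : Type} {ar : S → ℕ} {V : Type} [Fintype V] (R : Interp S ar V) (r k l : ℕ)
    (P : Finset V) : Prop :=
  ∀ (u u' : Fin k → V) (c : Finset V), c.card ≤ r → ∀ e : Fin (l ^ r) → Finset V,
    (∀ i j, i ≠ j → Disjoint (e i) (e j)) →
    (∀ i, ∃ s p, Dis R u u' s p ∧ ∀ w, w ∈ e i ↔ w ∈ out p ∧ w ∉ c) →
    ∃ s p, Dis R u u' s p ∧ ∀ w ∈ out p, w ∈ P ∨ w ∈ c

/-- all orbits of the stabiliser outside `A` are large -/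
def Closed {V : Type} [Fintype V] (G : Subgroup (Equiv.Perm V)) (T : ℕ) (A : Finset V) : Prop :=
  ∀ x, x ∉ A → T < (orb (G ⊓ fixP (A : Set V)) x).card

/-- P1a: hitting disjoint small sets -/
def StmtP1a : Prop := ∀ (V ι : Type) [Fintype V] [Fintype ι] (r l t : ℕ), 1 ≤ l → ∀
  (e : ι → Fin (l ^ r) → Finset V), (∀ a i j, i ≠ j → Disjoint (e a i) (e a j)) →
  (∀ a i, (e a i).card ≤ r) →
  Fintype.card ι * l ^ r * (Fintype.card V - l) ^ t < Fintype.card V ^ t →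
  ∃ P : Finset V, P.card ≤ r * t ∧ ∀ a, ∃ i, e a i ⊆ P

/-- P1: the set `P` -/
def StmtP1 : Prop := ∀ (V : Type) [Fintype V] (S : Type) (ar : S → ℕ) (R : Interp S ar V)
  (r k l t : ℕ), 1 ≤ l → (∀ s, ar s ≤ r) →
  (Fintype.card V + 1) ^ (2 * k + r) * l ^ r * (Fintype.card V - l) ^ t < Fintype.card V ^ t →
  ∃ P : Finset V, P.card ≤ r * t ∧ HitP R r k l P

/-- P2: covers -/
def StmtP2 : Prop := ∀ (V : Type) [Fintype V] (S : Type) (ar : S → ℕ) (R : Interp S ar V)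
  (r k l : ℕ) (P F : Finset V), (∀ s, ar s ≤ r) → HitP R r k l P → P ⊆ F →
  ∀ h ∈ AuG R, (∀ x ∈ F, h x = x) → ∀ u : Fin k → V,
  ∃ C : Finset V, (∀ w ∈ C, w ∉ F) ∧ C.card ≤ (r * l ^ r + 1) ^ r ∧
    ∀ s p, Dis R u (h ∘ u) s p → ∃ w ∈ out p, w ∈ C

/-- P3: permutation groups (no structure) -/
def StmtP3 : Prop := ∀ (V : Type) [Fintype V] (G : Subgroup (Equiv.Perm V)) (P : Finset V)
  (T k : ℕ), 1 ≤ T →
  Nat.card G ^ (k + 1) ≤ Fintype.card V ^ ((k + 1) * P.card) * T ^ ((k + 1) * Fintype.card V) *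
    Fintype.card V ^ Fintype.card V ∨
  ∃ F A : Finset V, P ⊆ F ∧ F ⊂ A ∧ A.card ≤ F.card + k ∧ Closed G T F ∧ Closed G T A ∧
    ∀ h ∈ G, (∀ x ∈ F, h x = x) → (∀ x ∈ A, h x ∈ A) ∨ ∀ x ∈ A, h x ∈ A → x ∈ F

/-- P4: exchange of translates -/
def StmtP4 : Prop := ∀ (V : Type) [Fintype V] (S : Type) (ar : S → ℕ) (R : Interp S ar V)
  (r k l T : ℕ) (P F A : Finset V) (u : Fin k → V), (∀ s, ar s ≤ r) → HitP R r k l P → P ⊆ F →
  F ⊆ A → Closed (AuG R) T A → 2 * (r * (r * l ^ r + 1) ^ r) ≤ T →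
  (∀ x, x ∈ A ↔ x ∈ F ∨ ∃ a, u a = x) →
  ∀ h₁ ∈ AuG R, ∀ h₂ ∈ AuG R, (∀ x ∈ F, h₁ x = x) → (∀ x ∈ F, h₂ x = x) →
  ∀ (s : S) (p : Fin (ar s) → V ⊕ Fin k),
    (∀ w ∈ out p, ∀ a, u a ∉ F → h₁ (u a) ≠ w ∧ h₂ (u a) ≠ w) →
    (R s (ev (h₁ ∘ u) p) ↔ R s (ev (h₂ ∘ u) p))

/-- P5: homogeneous families -/
def StmtP5 : Prop := ∀ (V : Type) [Fintype V] (S : Type) (ar : S → ℕ) (R : Interp S ar V)
  (r k l T q : ℕ) (P : Finset V), (∀ s, ar s ≤ r) → HitP R r k l P → r + 3 ≤ q →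
  2 * (r * (r * l ^ r + 1) ^ r) ≤ T → q * k ≤ T → 1 ≤ T →
  Nat.card (AuG R) ^ (k + 1) ≤ Fintype.card V ^ ((k + 1) * P.card) *
    T ^ ((k + 1) * Fintype.card V) * Fintype.card V ^ Fintype.card V ∨
  ∃ t, 1 ≤ t ∧ t ≤ k ∧ ∃ u : Fin q × Fin t → V, Function.Injective u ∧
    ∀ (π : Equiv.Perm (Fin q)) (σ : Equiv.Perm V), (∀ i x, σ (u (i, x)) = u (π i, x)) →
      (∀ z, (∀ p, u p ≠ z) → σ z = z) → Au R σ

/-- P6: numerics; `p` bounds the size of `P`, `g` the number of automorphisms -/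
def StmtP6 : Prop := ∀ (r k q : ℕ) (ε : ℝ), 1 ≤ r → 1 ≤ k → 0 < ε → ∀ᶠ n : ℕ in Filter.atTop,
  ∃ l T t : ℕ, 1 ≤ l ∧ 2 * (r * (r * l ^ r + 1) ^ r) ≤ T ∧ q * k ≤ T ∧ 1 ≤ T ∧
    (n + 1) ^ (2 * k + r) * l ^ r * (n - l) ^ t < n ^ t ∧
    ∀ p g : ℕ, p ≤ r * t → g ^ (k + 1) ≤ n ^ ((k + 1) * p) * T ^ ((k + 1) * n) * n ^ n →
      (g : ℝ) < (n : ℝ) ^ ((1 / (k + 1) + ε) * n)

/-- the final result of the chain -/
def StmtHomA : Prop := ∀ (S : Type) [Finite S] (ar : S → ℕ) (k q : ℕ) (ε : ℝ), 0 < ε →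
  ∀ᶠ n : ℕ in Filter.atTop, ∀ R : Interp S ar (Fin n),
    (n : ℝ) ^ ((1 / (k + 1) + ε) * n) ≤ (Nat.card (AuG R) : ℝ) →
    ∃ t, 1 ≤ t ∧ t ≤ k ∧ ∃ u : Fin q × Fin t → Fin n, Function.Injective u ∧
      ∀ (π : Equiv.Perm (Fin q)) (σ : Equiv.Perm (Fin n)), (∀ i x, σ (u (i, x)) = u (π i, x)) →
        (∀ z, (∀ p, u p ≠ z) → σ z = z) → Au R σ

end Pool.Agent.Helper38.MC
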