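import Pool.Agent.Helper38.MC.Lift2
import Pool.Agent.Helper6.MC.Sharp2

/-!
# Model counts, sharp form: StmtLift
-/

set_option autoImplicit false

namespace Pool.Agent.Helper38.MC

open Pool.Agent.Helper6.MC FirstOrder Pool.Agent.Helper20.Spectra Pool.Agent.Helper58.QD

theorem stmtLift : StmtLift := by
  intro S _ ar χ n q t Q r R har hM hF hq _
  obtain ⟨n', h1, R', h2, h3⟩ := remove_block har χ hM (show FamA R t (q + 1) from hF) hq
  exact ⟨n', h1, R', h2, fun t' h4 h5 => h3 t' Q h4 h5⟩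

/-- the sharp threshold, without hypotheses -/
theorem sharp' (r : ℕ) : ∃ C : ℕ, ∀ (S : Type) [Finite S] (ar : S → ℕ), (∀ s, ar s ≤ r) →
    ∀ χ : (RelLang S ar).Sentence,
    (∀ᶠ n : ℕ in Filter.atTop, count χ n * (Nat.log 2 n + 1) ^ (C * n) ≤ n.factorial) →
    ∃ k, Pool.Agent.Helper40.MC.FinAP k (Pool.Agent.Helper40.MC.spec χ) :=
  sharp stmtLift r

end Pool.Agent.Helper38.MC
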