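import Pool.Agent.Helper6.MC.Deg

/-!
# Model counts: a small hitting set
-/

set_option autoImplicit false

namespace Pool.Agent.Helper38.MC

open Finset Pool.Agent.Helper6.MC

/-- greedy hitting sets -/
theorem hit_family {M ι : Type} [Fintype M] [DecidableEq M] [DecidableEq ι] (D : ι → Finset M)
    (L : ℕ) (t : ℕ) : ∀ (fam : Finset ι), (∀ i ∈ fam, L ≤ (D i).card) →
    fam.card * (Fintype.card M - L) ^ t < Fintype.card M ^ t →
    ∃ P : Finset M, P.card ≤ t ∧ ∀ i ∈ fam, ∃ p ∈ P, p ∈ D i := by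
  induction t with
  | zero =>
    intro fam _ h
    rw [pow_zero, pow_zero, mul_one, Nat.lt_one_iff, Finset.card_eq_zero] at h
    exact ⟨∅, by simp, by simp [h]⟩
  | succ t ih =>
    intro fam hD h
    obtain ⟨n, hn⟩ : ∃ n, n = Fintype.card M := ⟨_, rfl⟩
    rw [← hn] at h
    by_cases hn0 : n = 0
    · rw [hn0] at h
      simp at h
    -- a point in many sets
    obtain ⟨p, hp⟩ : ∃ p : M, fam.card * L ≤ n * (fam.filter fun i => p ∈ D i).card := by
      by_contra hcon
      push Not at hcon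
      have h1 : ∑ p : M, (n * (fam.filter fun i => p ∈ D i).card) < ∑ _p : M, fam.card * L := by
        apply Finset.sum_lt_sum_of_nonempty
        · rw [← Finset.card_pos, Finset.card_univ, ← hn]
          omega
        · intro p _
          exact hcon p
      rw [← Finset.mul_sum, Finset.sum_const, Finset.card_univ, ← hn, smul_eq_mul] at h1
      have h2 : ∑ p : M, (fam.filter fun i => p ∈ D i).card = ∑ i ∈ fam, (D i).card := by
        simp only [Finset.card_filter]
        rw [Finset.sum_comm]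
        refine Finset.sum_congr rfl fun i _ => ?_
        rw [← Finset.card_filter]
        congr 1
        ext z
        simp
      rw [h2] at h1
      have h3 : fam.card * L ≤ ∑ i ∈ fam, (D i).card := by
        calc fam.card * L = ∑ _i ∈ fam, L := by rw [Finset.sum_const, smul_eq_mul]
          _ ≤ _ := Finset.sum_le_sum hD
      have h4 := Nat.mul_le_mul_left n h3
      omega
    obtain ⟨P, hP, hP'⟩ := ih (fam.filter fun i => ¬ p ∈ D i)
      (fun i hi => hD i (Finset.mem_filter.1 hi).1) (by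
      rw [← hn]
      have h1 := Finset.card_filter_add_card_filter_not (s := fam) (fun i => p ∈ D i)
      obtain ⟨a, ha⟩ : ∃ a, a = (fam.filter fun i => p ∈ D i).card := ⟨_, rfl⟩
      obtain ⟨b, hb⟩ : ∃ b, b = (fam.filter fun i => ¬ p ∈ D i).card := ⟨_, rfl⟩
      rw [← ha] at hp h1
      rw [← hb] at h1 ⊢
      -- n b ≤ |fam| (n - L)
      have h2 : n * b ≤ fam.card * (n - L) := by
        by_cases hLn : L ≤ n
        · obtain ⟨d, rfl⟩ := Nat.exists_eq_add_of_le hLn
          rw [Nat.add_sub_cancel_left, ← h1]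
          rw [← h1] at hp
          nlinarith
        · have h5 : fam.card = 0 := by
            by_contra h6
            obtain ⟨i, hi⟩ := Finset.card_pos.1 (Nat.pos_of_ne_zero h6)
            have h7 := hD i hi
            have h8 := Finset.card_le_univ (D i)
            omega
          have : b = 0 := by omega
          rw [this]
          simp
      have h3 : n * (b * (n - L) ^ t) < n * n ^ t := by
        calc n * (b * (n - L) ^ t) = (n * b) * (n - L) ^ t := by ring
          _ ≤ (fam.card * (n - L)) * (n - L) ^ t := Nat.mul_le_mul_right _ h2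
          _ = fam.card * (n - L) ^ (t + 1) := by ring
          _ < n ^ (t + 1) := h
          _ = n * n ^ t := by ring
      exact lt_of_mul_lt_mul_left h3 (Nat.zero_le n))
    refine ⟨insert p P, (Finset.card_insert_le _ _).trans (by omega), fun i hi => ?_⟩
    by_cases h1 : p ∈ D i
    · exact ⟨p, Finset.mem_insert_self _ _, h1⟩
    · obtain ⟨q, hq, hq'⟩ := hP' i (Finset.mem_filter.2 ⟨hi, h1⟩)
      exact ⟨q, Finset.mem_insert_of_mem hq, hq'⟩

theorem halving {n L t : ℕ} (hn : 1 ≤ n) (ht : n * (2 * Nat.log 2 n + 2) ≤ t * L) :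
    n ^ 2 * (n - L) ^ t < n ^ t := by
  by_cases hLn : L < n
  · have hn' : (0 : ℝ) < n := by exact_mod_cast hn
    have h1 : ((n - L : ℕ) : ℝ) = n * (1 - (L : ℝ) / n) := by
      rw [Nat.cast_sub hLn.le]
      field_simp
    have h2 : (0 : ℝ) ≤ 1 - (L : ℝ) / n := by
      rw [sub_nonneg, div_le_one hn']
      exact_mod_cast hLn.le
    have h3 : (1 - (L : ℝ) / n) ^ t ≤ Real.exp (-(2 * Nat.log 2 n + 2 : ℕ)) := by
      calc (1 - (L : ℝ) / n) ^ t ≤ (Real.exp (-((L : ℝ) / n))) ^ t :=
            pow_le_pow_left₀ h2 (Real.one_sub_le_exp_neg _) t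
        _ = Real.exp (-((t : ℝ) * L / n)) := by
            rw [← Real.exp_nat_mul]
            congr 1
            ring
        _ ≤ _ := by
            apply Real.exp_le_exp.2
            rw [neg_le_neg_iff, le_div_iff₀ hn']
            have : ((n * (2 * Nat.log 2 n + 2) : ℕ) : ℝ) ≤ ((t * L : ℕ) : ℝ) := by exact_mod_cast ht
            push_cast at this ⊢
            linarith
    have h4 : Real.exp (-(2 * Nat.log 2 n + 2 : ℕ)) ≤ ((2 : ℝ) ^ (2 * Nat.log 2 n + 2))⁻¹ := by
      rw [Real.exp_neg]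
      apply inv_anti₀ (by positivity)
      rw [← Real.exp_one_pow]
      exact pow_le_pow_left₀ (by norm_num) (by have := Real.add_one_le_exp 1; linarith) _
    have h5 : (n : ℝ) ^ 2 < (2 : ℝ) ^ (2 * Nat.log 2 n + 2) := by
      have h6 : n < 2 ^ (Nat.log 2 n + 1) := Nat.lt_pow_succ_log_self (by norm_num) n
      have h7 : n ^ 2 < (2 ^ (Nat.log 2 n + 1)) ^ 2 := Nat.pow_lt_pow_left h6 (by norm_num)
      have h8 : ((n ^ 2 : ℕ) : ℝ) < (((2 ^ (Nat.log 2 n + 1)) ^ 2 : ℕ) : ℝ) := by exact_mod_cast h7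
      push_cast at h8
      rw [← pow_mul] at h8
      have e : (Nat.log 2 n + 1) * 2 = 2 * Nat.log 2 n + 2 := by ring
      rw [e] at h8
      exact h8
    have h9 : (n : ℝ) ^ 2 * ((n - L : ℕ) : ℝ) ^ t < (n : ℝ) ^ t := by
      rw [h1, mul_pow]
      have h10 : (n : ℝ) ^ 2 * (1 - (L : ℝ) / n) ^ t < 1 := by
        calc (n : ℝ) ^ 2 * (1 - (L : ℝ) / n) ^ t ≤ (n : ℝ) ^ 2 * ((2 : ℝ) ^ (2 * Nat.log 2 n + 2))⁻¹ :=
              mul_le_mul_of_nonneg_left (h3.trans h4) (by positivity)
          _ < 1 := by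
              rw [← div_eq_mul_inv, div_lt_one (by positivity)]
              exact h5
      calc (n : ℝ) ^ 2 * ((n : ℝ) ^ t * (1 - (L : ℝ) / n) ^ t) =
            (n : ℝ) ^ t * ((n : ℝ) ^ 2 * (1 - (L : ℝ) / n) ^ t) := by ring
        _ < (n : ℝ) ^ t * 1 := mul_lt_mul_of_pos_left h10 (by positivity)
        _ = _ := mul_one _
    exact_mod_cast h9
  · have h0 : n - L = 0 := by omega
    have ht0 : t ≠ 0 := by
      rintro rfl
      have : 0 < n * (2 * Nat.log 2 n + 2) := by positivity
      omega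
    rw [h0, zero_pow ht0, mul_zero]
    positivity

/-- B1: a hitting set -/
theorem exists_hit {M Col : Type} [Fintype M] [DecidableEq M] [DecidableEq Col]
    (c : M → M → Col) (L : ℕ) (hL : 1 ≤ L) : ∃ P : Finset M, Hit c P L ∧
      P.card * L ≤ Fintype.card M * (2 * Nat.log 2 (Fintype.card M) + 2) + L := by
  obtain ⟨n, hn⟩ : ∃ n, n = Fintype.card M := ⟨_, rfl⟩
  rw [← hn]
  by_cases hn0 : n = 0
  · have : IsEmpty M := Fintype.card_eq_zero_iff.1 (hn ▸ hn0)
    exact ⟨∅, fun x => isEmptyElim x, by simp⟩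
  obtain ⟨t, ht⟩ : ∃ t, t = n * (2 * Nat.log 2 n + 2) / L + 1 := ⟨_, rfl⟩
  have ht1 : n * (2 * Nat.log 2 n + 2) ≤ t * L := by
    rw [ht]
    have h1 := Nat.div_add_mod (n * (2 * Nat.log 2 n + 2)) L
    have h2 := Nat.mod_lt (n * (2 * Nat.log 2 n + 2)) (show 0 < L by omega)
    have h3 : (n * (2 * Nat.log 2 n + 2) / L + 1) * L = L * (n * (2 * Nat.log 2 n + 2) / L) + L := by
      ring
    rw [h3]
    omega
  have ht2 : t * L ≤ n * (2 * Nat.log 2 n + 2) + L := by
    rw [ht, add_mul, one_mul]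
    have := Nat.div_mul_le_self (n * (2 * Nat.log 2 n + 2)) L
    omega
  have h1 := halving (by omega) ht1
  have h2 : (univ.filter fun p : M × M => L ≤ (Df c p.1 p.2).card).card ≤ n ^ 2 := by
    refine (Finset.card_le_univ _).trans ?_
    rw [Fintype.card_prod, ← hn, sq]
  obtain ⟨P, hP, hP'⟩ := hit_family (fun p : M × M => Df c p.1 p.2) L t
    (univ.filter fun p : M × M => L ≤ (Df c p.1 p.2).card) (fun p hp => (Finset.mem_filter.1 hp).2)
    (by rw [← hn]; exact (Nat.mul_le_mul_right _ h2).trans_lt h1)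
  refine ⟨P, fun x y hxy => ?_, (Nat.mul_le_mul_right _ hP).trans ht2⟩
  by_contra hcon
  push Not at hcon
  obtain ⟨p, hp, hp'⟩ := hP' (x, y) (Finset.mem_filter.2 ⟨Finset.mem_univ _, hcon.le⟩)
  exact mem_Df.1 hp' (hxy p hp)

end Pool.Agent.Helper38.MC
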