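import Pool.Agent.Helper38.MC.P4
import Pool.Agent.Helper83.AA.Hit

/-!
# Model counts for all arities: many automorphisms give homogeneous families
-/

set_option autoImplicit false

namespace Pool.Agent.Helper38.MC

open FirstOrder Pool.Agent.Helper20.Spectra Pool.Agent.Helper58.QD
open Pool.Agent.Helper31.QD Pool.Agent.Helper40.MC

/-- fewer blocks -/
theorem fewer {S : Type} {ar : S → ℕ} {V : Type} {R : Interp S ar V} {q q' t : ℕ} (hq : q ≤ q')
    (u : Fin q' × Fin t → V) (hu : Function.Injective u)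
    (h : ∀ (π : Equiv.Perm (Fin q')) (σ : Equiv.Perm V), (∀ i x, σ (u (i, x)) = u (π i, x)) →
      (∀ z, (∀ p, u p ≠ z) → σ z = z) → Au R σ) :
    ∃ u : Fin q × Fin t → V, Function.Injective u ∧
    ∀ (π : Equiv.Perm (Fin q)) (σ : Equiv.Perm V), (∀ i x, σ (u (i, x)) = u (π i, x)) →
      (∀ z, (∀ p, u p ≠ z) → σ z = z) → Au R σ := by
  refine ⟨fun p => u (Fin.castLE hq p.1, p.2), ?_, ?_⟩
  · intro p p' hpp
    have h1 := hu hpp
    rw [Prod.mk.injEq] at h1
    exact Prod.ext (Fin.castLE_injective hq h1.1) h1.2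
  · intro π σ h1 h2
    refine h (π.viaEmbedding (Fin.castLEEmb hq)) σ ?_ ?_
    · intro i x
      by_cases hi : ∃ j : Fin q, Fin.castLEEmb hq j = i
      · obtain ⟨j, rfl⟩ := hi
        rw [Equiv.Perm.viaEmbedding_apply]
        exact h1 j x
      · rw [Equiv.Perm.viaEmbedding_apply_of_notMem _ _ _ (by
          rintro ⟨j, hj⟩
          exact hi ⟨j, hj⟩)]
        refine h2 _ ?_
        rintro ⟨j, y⟩ hj
        have h3 := hu hj
        rw [Prod.mk.injEq] at h3
        exact hi ⟨j, h3.1⟩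
    · intro z hz
      exact h2 z (fun p => hz _)

theorem card_AuG_le {S : Type} {ar : S → ℕ} {n : ℕ} (R : Interp S ar (Fin n)) :
    Nat.card (AuG R) ≤ n ^ n := by
  classical
  have h1 : Nat.card (AuG R) ≤ Nat.card (Equiv.Perm (Fin n)) :=
    Nat.card_le_card_of_injective _ (AuG R).subtype_injective
  have h2 : Nat.card (Equiv.Perm (Fin n)) = n.factorial := by
    rw [Nat.card_eq_fintype_card, Fintype.card_perm, Fintype.card_fin]
  rw [h2] at h1
  exact h1.trans (Nat.factorial_le_pow n)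

theorem stmtHomA (h5 : StmtP5) (h6 : StmtP6) : StmtHomA := by
  intro S _ ar k q ε hε
  obtain ⟨r, hr1, hr⟩ : ∃ r, 1 ≤ r ∧ ∀ s, ar s ≤ r := by
    obtain ⟨b, hb⟩ := (Set.finite_range ar).bddAbove
    exact ⟨max 1 b, le_max_left _ _, fun s => (hb ⟨s, rfl⟩).trans (le_max_right _ _)⟩
  by_cases hk : k = 0
  · subst hk
    filter_upwards [Filter.eventually_ge_atTop 2] with n hn R hR
    exfalso
    have h1 : ((Nat.card (AuG R) : ℕ) : ℝ) ≤ (n : ℝ) ^ n := by
      exact_mod_cast card_AuG_le R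
    have hn1 : (1 : ℝ) < n := by exact_mod_cast (by omega : 1 < n)
    have h2 : (n : ℝ) ^ n < (n : ℝ) ^ ((1 / ((0 : ℕ) + 1) + ε) * n : ℝ) := by
      rw [← Real.rpow_natCast (n : ℝ) n]
      apply Real.rpow_lt_rpow_of_exponent_lt hn1
      have : (0 : ℝ) < n := by linarith
      have : 0 < ε * n := mul_pos hε this
      push_cast
      nlinarith
    have h3 := h2.trans_le (hR.trans h1)
    exact lt_irrefl _ h3
  · have hk1 : 1 ≤ k := Nat.one_le_iff_ne_zero.2 hk
    filter_upwards [h6 r k (max q (r + 3)) ε hr1 hk1 hε] with n hn R hR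
    obtain ⟨l, T, t, hl, hT1, hT2, hT3, hN, hfin⟩ := hn
    obtain ⟨P, hP1, hP2⟩ := Pool.Agent.Helper83.AA.p1 (Fin n) S ar R r k l t hl hr (by
      rw [Fintype.card_fin]
      exact hN)
    rcases h5 (Fin n) S ar R r k l T (max q (r + 3)) P hr hP2 (le_max_right _ _) hT1 hT2 hT3 with
      h | ⟨t', h1, h2, u, hu, hu'⟩
    · exfalso
      rw [Fintype.card_fin] at h
      exact absurd (hfin P.card _ hP1 h) (not_lt.2 hR)
    · exact ⟨t', h1, h2, fewer (le_max_left _ _) u hu hu'⟩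

end Pool.Agent.Helper38.MC
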