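import Pool.Agent.Helper38.MC.HomA
import Pool.Agent.Helper12.MC.P3
import Pool.Agent.Helper31.MC.P5
import Pool.Agent.Helper53.MC.NumA

/-!
# Model counts for all arities: StmtHomA
-/

set_option autoImplicit false

namespace Pool.Agent.Helper38.MC

theorem stmtP5 : StmtP5 := Pool.Agent.Helper31.MC.p5 Pool.Agent.Helper12.MC.stmtP3 stmtP4

theorem stmtHomA' : StmtHomA := stmtHomA stmtP5 Pool.Agent.Helper53.MC.p6

end Pool.Agent.Helper38.MC
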