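import Pool.Agent.Helper38.MC.HomA
import Pool.Agent.Helper38.MC.Pump

/-!
# Model counts, sharp form: removing a large block
-/

set_option autoImplicit false

namespace Pool.Agent.Helper38.MC

open FirstOrder Pool.Agent.Helper20.Spectra Pool.Agent.Helper58.QD
open Pool.Agent.Helper31.QD Pool.Agent.Helper40.MC Pool.Agent.Helper38.QD

/-- a family of `q` blocks of `t` points whose permutations are automorphisms -/
def FamA {S : Type} {ar : S → ℕ} {V : Type} (R : Interp S ar V) (t q : ℕ) : Prop :=
  ∃ u : Fin q × Fin t → V, Function.Injective u ∧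
    ∀ (π : Equiv.Perm (Fin q)) (σ : Equiv.Perm V), (∀ i x, σ (u (i, x)) = u (π i, x)) →
      (∀ z, (∀ p, u p ≠ z) → σ z = z) → Au R σ

theorem FamA.fewer {S : Type} {ar : S → ℕ} {V : Type} {R : Interp S ar V} {t q q' : ℕ}
    (h : FamA R t q') (hq : q ≤ q') : FamA R t q := by
  obtain ⟨u, h1, h2⟩ := h
  exact MC.fewer hq u h1 h2

theorem FamA.equiv {S : Type} {ar : S → ℕ} {V W : Type} {R : Interp S ar V} {t q : ℕ}
    (h : FamA R t q) (e : W ≃ V) : FamA (fun s w => R s (e ∘ w)) t q := by
  obtain ⟨u, h1, h2⟩ := h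
  refine ⟨fun p => e.symm (u p), fun p p' hp => h1 (e.symm.injective hp), ?_⟩
  intro π σ h3 h4 s w
  have h5 := h2 π (e.symm.trans (σ.trans e)) (by
    intro i x
    show e (σ (e.symm (u (i, x)))) = _
    rw [h3, Equiv.apply_symm_apply]) (by
    intro z hz
    show e (σ (e.symm z)) = z
    rw [h4 (e.symm z) (fun p hp => hz p (e.symm.injective hp)), Equiv.apply_symm_apply])
  have h6 := h5 s (e ∘ w)
  have e1 : (e.symm.trans (σ.trans e)) ∘ (e ∘ w) = e ∘ (σ ∘ w) := by
    funext a
    show e (σ (e.symm (e (w a)))) = _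
    rw [Equiv.symm_apply_apply]
    rfl
  rw [e1] at h6
  exact h6

/-- a family of the structure without one block is a family of the structure -/
theorem lift_fam {S : Type} {ar : S → ℕ} {N T : Type} [Finite N] [Finite T] {q Q t r : ℕ}
    (har : ∀ s, ar s ≤ r) {R : Interp S ar (N ⊕ Fin (q + 1) × T)}
    (hR : ∀ π : Equiv.Perm (Fin (q + 1)), Au R (bp π))
    (hq : Q * t + r < q)
    (h : FamA (fun s (w : Fin (ar s) → N ⊕ Fin q × T) => R s (mp Fin.castSucc ∘ w)) t Q) :
    FamA R t Q := by
  classical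
  have := Fintype.ofFinite N
  have := Fintype.ofFinite T
  obtain ⟨u, hu, hu2⟩ := h
  have hj : Function.Injective (mp Fin.castSucc : N ⊕ Fin q × T → N ⊕ Fin (q + 1) × T) :=
    mp_inj _ (Fin.castSucc_injective q)
  refine ⟨fun p => mp Fin.castSucc (u p), fun p p' hp => hu (hj hp), ?_⟩
  intro π σ h1 h2 s v
  -- an index which is not touched
  obtain ⟨a, ha1, ha2⟩ : ∃ a : Fin q, (∀ p y, u p ≠ Sum.inr (a, y)) ∧
      ∀ i y, v i ≠ Sum.inr (Fin.castSucc a, y) := by
    by_contra hcon
    push Not at hcon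
    -- the touched indices
    have hsub : (Finset.univ : Finset (Fin q)) ⊆
        (Finset.univ.image fun p : Fin Q × Fin t => Sum.elim (fun _ => none) (fun z => some z.1) (u p)).biUnion
          (fun o => o.toFinset) ∪
        (Finset.univ.image fun i : Fin (ar s) => Sum.elim (fun _ => none) (fun z => some z.1) (v i)).biUnion
          (fun o => Finset.univ.filter fun a : Fin q => o = some (Fin.castSucc a)) := by
      intro a _
      rw [Finset.mem_union]
      by_cases hc : ∀ p y, u p ≠ Sum.inr (a, y)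
      · right
        obtain ⟨i, y, hi⟩ := hcon a hc
        rw [Finset.mem_biUnion]
        refine ⟨some (Fin.castSucc a), Finset.mem_image.2 ⟨i, Finset.mem_univ _, ?_⟩, ?_⟩
        · rw [hi]; rfl
        · rw [Finset.mem_filter]
          exact ⟨Finset.mem_univ _, rfl⟩
      · left
        push Not at hc
        obtain ⟨p, y, hp⟩ := hc
        rw [Finset.mem_biUnion]
        refine ⟨some a, Finset.mem_image.2 ⟨p, Finset.mem_univ _, ?_⟩, ?_⟩
        · rw [hp]; rfl
        · simp
    have hc := (Finset.card_le_card hsub).trans (Finset.card_union_le _ _)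
    rw [Finset.card_univ, Fintype.card_fin] at hc
    have c1 : ((Finset.univ.image fun p : Fin Q × Fin t =>
        Sum.elim (fun _ => none) (fun z => some z.1) (u p)).biUnion (fun o => o.toFinset)).card ≤ Q * t := by
      refine Finset.card_biUnion_le.trans ?_
      calc _ ≤ ∑ _o ∈ (Finset.univ.image fun p : Fin Q × Fin t =>
            Sum.elim (fun _ => none) (fun z => some z.1) (u p) : Finset (Option (Fin q))), 1 := by
            refine Finset.sum_le_sum fun o _ => ?_
            rcases o with _ | o <;> simp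
        _ ≤ Q * t := by
            rw [Finset.sum_const, smul_eq_mul, mul_one]
            refine Finset.card_image_le.trans ?_
            simp
    have c2 : ((Finset.univ.image fun i : Fin (ar s) => Sum.elim (fun _ => none) (fun z => some z.1) (v i)).biUnion
          (fun o => Finset.univ.filter fun a : Fin q => o = some (Fin.castSucc a))).card ≤ r := by
      refine Finset.card_biUnion_le.trans ?_
      calc _ ≤ ∑ _o ∈ (Finset.univ.image fun i : Fin (ar s) =>
            Sum.elim (fun _ => none) (fun z => some z.1) (v i) : Finset (Option (Fin (q + 1)))), 1 := by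
            refine Finset.sum_le_sum fun o _ => ?_
            rw [Finset.card_le_one]
            intro a ha b hb
            rw [Finset.mem_filter] at ha hb
            have h3 := ha.2.symm.trans hb.2
            exact Fin.castSucc_injective q (Option.some_injective _ h3)
        _ ≤ r := by
            rw [Finset.sum_const, smul_eq_mul, mul_one]
            refine Finset.card_image_le.trans ?_
            simpa using har s
    omega
  -- the restriction of `σ`
  have hex : ∀ x : N ⊕ Fin q × T, ∃ y : N ⊕ Fin q × T, mp Fin.castSucc y = σ (mp Fin.castSucc x) := by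
    intro x
    by_cases hx : ∃ p, u p = x
    · obtain ⟨p, rfl⟩ := hx
      exact ⟨u (π p.1, p.2), (h1 p.1 p.2).symm⟩
    · push Not at hx
      exact ⟨x, (h2 _ (fun p hp => hx p (hj hp))).symm⟩
  choose f hf using hex
  have hfi : Function.Injective f := by
    intro x y hxy
    have h3 := hf x
    rw [hxy, hf y] at h3
    exact (hj (σ.injective h3)).symm
  let σ₁ : Equiv.Perm (N ⊕ Fin q × T) := Equiv.ofBijective f (Finite.injective_iff_bijective.1 hfi)
  have hσ₁ : ∀ x, mp Fin.castSucc (σ₁ x) = σ (mp Fin.castSucc x) := hf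
  have hA := hu2 π σ₁ (by
    intro i x
    apply hj
    rw [hσ₁]
    exact h1 i x) (by
    intro z hz
    apply hj
    rw [hσ₁]
    exact h2 _ (fun p hp => hz p (hj hp)))
  -- moving `v` away from the last block
  set τ : Equiv.Perm (N ⊕ Fin (q + 1) × T) := bp (Equiv.swap (Fin.castSucc a) (Fin.last q)) with hτ
  have hτ1 : ∀ (i : Fin (q + 1)) (y : T), i ≠ Fin.castSucc a → i ≠ Fin.last q →
      τ (Sum.inr (i, y)) = Sum.inr (i, y) := by
    intro i y h3 h4
    rw [hτ, bp_eq]
    show Sum.inr (Equiv.swap (Fin.castSucc a) (Fin.last q) i, y) = _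
    rw [Equiv.swap_apply_of_ne_of_ne h3 h4]
  have hτ0 : ∀ x : N, τ (Sum.inl x) = Sum.inl x := fun x => rfl
  have hτ2 : ∀ y : T, τ (Sum.inr (Fin.last q, y)) = Sum.inr (Fin.castSucc a, y) := by
    intro y
    rw [hτ, bp_eq]
    show Sum.inr (Equiv.swap (Fin.castSucc a) (Fin.last q) (Fin.last q), y) = _
    rw [Equiv.swap_apply_right]
  have hτ3 : ∀ y : T, τ (Sum.inr (Fin.castSucc a, y)) = Sum.inr (Fin.last q, y) := by
    intro y
    rw [hτ, bp_eq]
    show Sum.inr (Equiv.swap (Fin.castSucc a) (Fin.last q) (Fin.castSucc a), y) = _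
    rw [Equiv.swap_apply_left]
  have hv1 : ∀ i, ∃ y : N ⊕ Fin q × T, mp Fin.castSucc y = τ (v i) := by
    intro i
    rcases e : v i with x | ⟨b, y⟩
    · exact ⟨Sum.inl x, rfl⟩
    · by_cases hb : b = Fin.last q
      · subst hb
        exact ⟨Sum.inr (a, y), (hτ2 y).symm⟩
      · obtain ⟨b', rfl⟩ := Fin.exists_castSucc_eq.2 hb
        refine ⟨Sum.inr (b', y), ?_⟩
        rw [hτ1 _ _ (fun h3 => ha2 i y (by rw [e, h3])) hb]
        rfl
  choose v1 hv1' using hv1
  have e1 : mp Fin.castSucc ∘ v1 = τ ∘ v := funext hv1'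
  -- `σ` does not touch the blocks `a` and `last`
  have hσa : ∀ y : T, σ (Sum.inr (Fin.castSucc a, y)) = Sum.inr (Fin.castSucc a, y) := by
    intro y
    apply h2
    intro p hp
    exact ha1 p y (hj hp)
  have hσl : ∀ y : T, σ (Sum.inr (Fin.last q, y)) = Sum.inr (Fin.last q, y) := by
    intro y
    apply h2
    intro p hp
    replace hp : mp Fin.castSucc (u p) = Sum.inr (Fin.last q, y) := hp
    rcases e : u p with x | ⟨b, z⟩
    · rw [e] at hp
      exact absurd hp (by simp [mp])
    · rw [e] at hp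
      have h3 : Fin.castSucc b = Fin.last q := congrArg Prod.fst (Sum.inr_injective hp)
      exact absurd h3 (Fin.castSucc_lt_last b).ne
  have e2 : τ ∘ (σ ∘ (τ ∘ v)) = σ ∘ v := by
    funext i
    show τ (σ (τ (v i))) = σ (v i)
    by_cases hl : ∃ y, v i = Sum.inr (Fin.last q, y)
    · obtain ⟨y, hy⟩ := hl
      rw [hy, hτ2, hσa, hτ3, hσl]
    · push Not at hl
      have hfix : ∀ x : N ⊕ Fin (q + 1) × T, (∀ y, x ≠ Sum.inr (Fin.last q, y)) →
          (∀ y, x ≠ Sum.inr (Fin.castSucc a, y)) → τ x = x := by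
        intro x hx1 hx2
        rcases x with x | ⟨b, y⟩
        · exact hτ0 x
        · exact hτ1 b y (fun h3 => hx2 y (by rw [h3])) (fun h3 => hx1 y (by rw [h3]))
      rw [hfix (v i) hl (ha2 i)]
      apply hfix
      · intro y hy
        have h3 : v i = Sum.inr (Fin.last q, y) := σ.injective (hy.trans (hσl y).symm)
        exact hl y h3
      · intro y hy
        have h3 : v i = Sum.inr (Fin.castSucc a, y) := σ.injective (hy.trans (hσa y).symm)
        exact ha2 i y h3
  have k1 : R s (τ ∘ v) ↔ R s v := hR _ s v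
  have k2 := hA s v1
  have k3 : R s (mp Fin.castSucc ∘ (σ₁ ∘ v1)) ↔ R s (mp Fin.castSucc ∘ v1) := k2
  have e3 : mp Fin.castSucc ∘ (σ₁ ∘ v1) = σ ∘ (τ ∘ v) := by
    funext i
    show mp Fin.castSucc (σ₁ (v1 i)) = _
    rw [hσ₁, hv1']
    rfl
  rw [e3, e1] at k3
  have k4 : R s (τ ∘ (σ ∘ (τ ∘ v))) ↔ R s (σ ∘ (τ ∘ v)) := hR _ s (σ ∘ (τ ∘ v))
  rw [e2] at k4
  exact k4.trans (k3.trans k1)

end Pool.Agent.Helper38.MC
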