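import Pool.Agent.Helper38.MC.Lift

/-!
# Model counts, sharp form: removing a large block, packaged
-/

set_option autoImplicit false

namespace Pool.Agent.Helper38.MC

open FirstOrder Pool.Agent.Helper20.Spectra Pool.Agent.Helper58.QD
open Pool.Agent.Helper31.QD Pool.Agent.Helper40.MC Pool.Agent.Helper38.QD

/-- decomposition of the universe by a family -/
theorem decomp {S : Type} {ar : S → ℕ} {n q t : ℕ} {R : Interp S ar (Fin n)} (h : FamA R t q) :
    ∃ (N : Type) (_ : Fintype N) (e : N ⊕ Fin q × Fin t ≃ Fin n),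
      ∀ π : Equiv.Perm (Fin q), Au (fun s w => R s (e ∘ w)) (bp π) := by
  classical
  obtain ⟨u, hu, hR⟩ := h
  let e1 : {z : Fin n // ¬ z ∈ Set.range u} ⊕ (Fin q × Fin t) ≃ Fin n :=
    ((Equiv.sumComm _ _).trans (Equiv.sumCongr (Equiv.ofInjective u hu) (Equiv.refl _))).trans
      (Equiv.sumCompl (fun z => z ∈ Set.range u))
  have he1 : ∀ z, e1 (Sum.inl z) = z := fun z => rfl
  have he2 : ∀ p, e1 (Sum.inr p) = u p := fun p => rfl
  refine ⟨{z : Fin n // ¬ z ∈ Set.range u}, inferInstance, e1, ?_⟩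
  intro π s w
  have h := hR π (e1.symm.trans ((bp π).trans e1)) (by
    intro i x
    rw [← he2]
    show e1 (bp π (e1.symm (e1 (Sum.inr (i, x))))) = _
    rw [Equiv.symm_apply_apply, bp_eq]
    rfl) (by
    intro z hz
    have : z = e1 (Sum.inl ⟨z, fun ⟨p, hp⟩ => hz p hp⟩) := rfl
    rw [this]
    show e1 (bp π (e1.symm (e1 (Sum.inl _)))) = _
    rw [Equiv.symm_apply_apply, bp_eq]
    rfl)
  show R s (e1 ∘ (bp π ∘ w)) ↔ R s (e1 ∘ w)
  rw [← h s (e1 ∘ w)]
  have : (e1.symm.trans ((bp π).trans e1)) ∘ (e1 ∘ w) = e1 ∘ (bp π ∘ w) := by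
    funext a
    show e1 (bp π (e1.symm (e1 (w a)))) = _
    rw [Equiv.symm_apply_apply]
    rfl
  rw [this]

/-- removing one block of a large family; the families of the smaller structure lift -/
theorem remove_block {S : Type} {ar : S → ℕ} {r : ℕ} (har : ∀ s, ar s ≤ r)
    (χ : (RelLang S ar).Sentence) {n q t : ℕ} {R : Interp S ar (Fin n)} (hM : IsMod χ R)
    (h : FamA R t (q + 1)) (hq : qd χ ≤ q) :
    ∃ n', n' + t = n ∧ ∃ R' : Interp S ar (Fin n'), IsMod χ R' ∧
      ∀ t' Q, Q * t' + r < q → FamA R' t' Q → FamA R t' Q := by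
  classical
  obtain ⟨N, hN, e, hinv⟩ := decomp h
  have hM0 : IsMod χ (fun s w => R s (e ∘ w)) := (isMod_equiv χ e.symm R).1 hM
  have h1 := efB (R' := fun s w => R s (e ∘ w))
    (R := fun s (w : Fin (ar s) → N ⊕ Fin q × Fin t) => R s (e ∘ (mp Fin.castSucc ∘ w)))
    Fin.castSucc (Fin.castSucc_injective q) hinv (fun s t => Iff.rfl) χ
    (by rw [Nat.card_eq_fintype_card, Fintype.card_fin]; omega) default default default
  have e1 : (mp Fin.castSucc ∘ (default : Fin 0 → N ⊕ Fin q × Fin t)) = default := Subsingleton.elim _ _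
  rw [e1] at h1
  have hM1 : IsMod χ (fun s (w : Fin (ar s) → N ⊕ Fin q × Fin t) => R s (e ∘ (mp Fin.castSucc ∘ w))) :=
    h1.1 hM0
  have hc : Fintype.card (N ⊕ Fin q × Fin t) + t = n := by
    have h2 := Fintype.card_congr e
    rw [Fintype.card_sum, Fintype.card_prod, Fintype.card_fin, Fintype.card_fin, Fintype.card_fin] at h2
    rw [Fintype.card_sum, Fintype.card_prod, Fintype.card_fin, Fintype.card_fin, ← h2]
    ring
  obtain ⟨n', hn'⟩ : ∃ n', n' = Fintype.card (N ⊕ Fin q × Fin t) := ⟨_, rfl⟩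
  let e2 : N ⊕ Fin q × Fin t ≃ Fin n' := Fintype.equivFinOfCardEq hn'.symm
  refine ⟨n', by omega, fun s w => R s (e ∘ (mp Fin.castSucc ∘ (e2.symm ∘ w))),
    (isMod_equiv χ e2 _).1 hM1, ?_⟩
  intro t' Q hQ hF
  have h3 := hF.equiv e2
  have e3 : (fun (s : S) (w : Fin (ar s) → N ⊕ Fin q × Fin t) =>
      R s (e ∘ (mp Fin.castSucc ∘ (e2.symm ∘ (e2 ∘ w))))) =
      fun s w => R s (e ∘ (mp Fin.castSucc ∘ w)) := by
    funext s w
    have : e2.symm ∘ (e2 ∘ w) = w := by
      funext a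
      exact e2.symm_apply_apply (w a)
    rw [this]
  rw [e3] at h3
  have h4 := lift_fam (R := fun s w => R s (e ∘ w)) har hinv hQ h3
  have h5 := h4.equiv e.symm
  have e4 : (fun (s : S) (w : Fin (ar s) → Fin n) => R s (e ∘ (e.symm ∘ w))) = R := by
    funext s w
    have : e ∘ (e.symm ∘ w) = w := by
      funext a
      exact e.apply_symm_apply (w a)
    rw [this]
  rw [e4] at h5
  exact h5

end Pool.Agent.Helper38.MC
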