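import Pool.Agent.Helper38.MC.ADefs

/-!
# Model counts for all arities, P2: small covers
-/

set_option autoImplicit false

namespace Pool.Agent.Helper38.MC

open FirstOrder Pool.Agent.Helper20.Spectra Pool.Agent.Helper58.QD
open Pool.Agent.Helper31.QD Pool.Agent.Helper40.MC

theorem mem_out {V : Type} [Fintype V] {k m : ℕ} {p : Fin m → V ⊕ Fin k} {w : V} :
    w ∈ out p ↔ ∃ i, p i = Sum.inl w := by
  classical
  simp [out]

theorem card_out {V : Type} [Fintype V] {k m : ℕ} (p : Fin m → V ⊕ Fin k) : (out p).card ≤ m := by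
  classical
  have h : (out p).card ≤ (Finset.univ.image p).card := by
    apply Finset.card_le_card_of_injOn (fun w => (Sum.inl w : V ⊕ Fin k))
    · intro w hw
      obtain ⟨i, hi⟩ := mem_out.1 hw
      exact Finset.mem_coe.2 (Finset.mem_image.2 ⟨i, Finset.mem_univ _, hi⟩)
    · intro a _ b _ hab
      exact Sum.inl_injective hab
  refine h.trans (Finset.card_image_le.trans ?_)
  simp

theorem no_dis {S : Type} {ar : S → ℕ} {V : Type} [Fintype V] {k : ℕ} {R : Interp S ar V}
    {h : Equiv.Perm V} (hh : h ∈ AuG R) {u : Fin k → V} {s : S} {p : Fin (ar s) → V ⊕ Fin k}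
    (hp : ∀ w ∈ out p, h w = w) : ¬ Dis R u (h ∘ u) s p := by
  intro hd
  apply hd
  have e : ev (h ∘ u) p = h ∘ ev u p := by
    funext i
    show Sum.elim id (h ∘ u) (p i) = h (Sum.elim id u (p i))
    rcases e : p i with w | a
    · show w = h w
      exact (hp w (mem_out.2 ⟨i, e⟩)).symm
    · rfl
  rw [e]
  exact (hh s (ev u p)).symm

theorem packing {V : Type} [DecidableEq V] (𝓕 : Finset V → Prop) (r : ℕ)
    (hr : ∀ e, 𝓕 e → e.card ≤ r) (m : ℕ) :
    (∃ e : Fin m → Finset V, (∀ i j, i ≠ j → Disjoint (e i) (e j)) ∧ ∀ i, 𝓕 (e i)) ∨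
    ∃ C : Finset V, C.card ≤ r * m ∧ ∀ e, 𝓕 e → ¬ Disjoint e C := by
  induction m with
  | zero => exact Or.inl ⟨fun i => i.elim0, fun i => i.elim0, fun i => i.elim0⟩
  | succ m ih =>
    rcases ih with ⟨e, he1, he2⟩ | ⟨C, hC1, hC2⟩
    · by_cases h : ∀ e', 𝓕 e' → ¬ Disjoint e' (Finset.univ.biUnion e)
      · refine Or.inr ⟨_, ?_, h⟩
        refine Finset.card_biUnion_le.trans ?_
        calc ∑ i : Fin m, (e i).card ≤ ∑ _i : Fin m, r := Finset.sum_le_sum fun i _ => hr _ (he2 i)
          _ = m * r := by simp
          _ ≤ r * (m + 1) := by ring_nf; omega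
      · push Not at h
        obtain ⟨e', h1, h2⟩ := h
        have h3 : ∀ i, Disjoint e' (e i) := fun i => Finset.disjoint_of_subset_right
          (Finset.subset_biUnion_of_mem e (Finset.mem_univ i)) h2
        refine Or.inl ⟨Fin.cons e' e, ?_, ?_⟩
        · intro i j
          refine Fin.cases ?_ (fun i => ?_) i
          · refine Fin.cases ?_ (fun j => ?_) j
            · intro h; exact absurd rfl h
            · intro _
              rw [Fin.cons_zero, Fin.cons_succ]
              exact h3 j
          · refine Fin.cases ?_ (fun j => ?_) j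
            · intro _
              rw [Fin.cons_zero, Fin.cons_succ]
              exact (h3 i).symm
            · intro hij
              rw [Fin.cons_succ, Fin.cons_succ]
              exact he1 i j (fun h => hij (by rw [h]))
        · intro i
          refine Fin.cases ?_ (fun i => ?_) i
          · rw [Fin.cons_zero]; exact h1
          · rw [Fin.cons_succ]; exact he2 i
    · exact Or.inr ⟨C, hC1.trans (Nat.mul_le_mul_left _ (Nat.le_succ m)), hC2⟩

theorem stmtP2 : StmtP2 := by
  classical
  intro V _ S ar R r k l P F har hP hPF h hh hF u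
  obtain ⟨A, hA⟩ : ∃ A, A = r * l ^ r := ⟨_, rfl⟩
  have hout : ∀ s (p : Fin (ar s) → V ⊕ Fin k), Dis R u (h ∘ u) s p → ¬ out p ⊆ F := by
    intro s p hd hs
    exact no_dis hh (fun w hw => hF w (hs hw)) hd
  have claim : ∀ (j : ℕ) (c : Finset V), c ⊆ F → c.card + j = r →
      ∃ C : Finset V, (∀ w ∈ C, w ∉ F) ∧ C.card + 1 ≤ (A + 1) ^ j ∧
        ∀ s (p : Fin (ar s) → V ⊕ Fin k), Dis R u (h ∘ u) s p → c ⊆ out p → ∃ w ∈ out p, w ∈ C := by
    intro j
    induction j with
    | zero =>
      intro c hc hcr
      refine ⟨∅, by simp, by simp, fun s p hd hcp => ?_⟩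
      exfalso
      have h1 := (card_out p).trans (har s)
      have h2 : c = out p := Finset.eq_of_subset_of_card_le hcp (by omega)
      exact hout s p hd (h2 ▸ hc)
    | succ j ih =>
      intro c hc hcr
      rcases packing (fun e : Finset V => ∃ s p, Dis R u (h ∘ u) s p ∧
          ∀ w, w ∈ e ↔ w ∈ out p ∧ w ∉ c) r (by
          rintro e ⟨s, p, _, h2⟩
          refine le_trans (Finset.card_le_card (fun w hw => ((h2 w).1 hw).1)) ((card_out p).trans (har s)))
          (l ^ r) with ⟨e, he1, he2⟩ | ⟨C0, hC1, hC2⟩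
      · exfalso
        obtain ⟨s, p, h1, h2⟩ := hP u (h ∘ u) c (by omega) e he1 he2
        refine hout s p h1 fun w hw => ?_
        rcases h2 w hw with h3 | h3
        · exact hPF h3
        · exact hc h3
      · have hex : ∀ z : V, ∃ C : Finset V, (∀ w ∈ C, w ∉ F) ∧ C.card + 1 ≤ (A + 1) ^ j ∧
            (z ∈ F → z ∉ c → ∀ s (p : Fin (ar s) → V ⊕ Fin k), Dis R u (h ∘ u) s p →
              insert z c ⊆ out p → ∃ w ∈ out p, w ∈ C) := by
          intro z
          by_cases hz : z ∈ F ∧ z ∉ c
          · obtain ⟨C, h1, h2, h3⟩ := ih (insert z c) (Finset.insert_subset hz.1 hc) (by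
              rw [Finset.card_insert_of_notMem hz.2]; omega)
            exact ⟨C, h1, h2, fun _ _ => h3⟩
          · exact ⟨∅, by simp, by
              rw [Finset.card_empty]
              exact Nat.one_le_pow _ _ (by omega), fun h1 h2 => absurd ⟨h1, h2⟩ hz⟩
        choose Cz h1 h2 h3 using hex
        refine ⟨C0.biUnion fun z => if z ∈ F then Cz z else {z}, ?_, ?_, ?_⟩
        · intro w hw
          obtain ⟨z, _, hz⟩ := Finset.mem_biUnion.1 hw
          by_cases hzF : z ∈ F
          · rw [if_pos hzF] at hz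
            exact h1 z w hz
          · rw [if_neg hzF, Finset.mem_singleton] at hz
            rw [hz]; exact hzF
        · have h4 : (C0.biUnion fun z => if z ∈ F then Cz z else {z}).card ≤ A * (A + 1) ^ j := by
            refine Finset.card_biUnion_le.trans ?_
            calc ∑ z ∈ C0, (if z ∈ F then Cz z else {z}).card ≤ ∑ _z ∈ C0, (A + 1) ^ j := by
                  refine Finset.sum_le_sum fun z _ => ?_
                  by_cases hzF : z ∈ F
                  · rw [if_pos hzF]
                    have := h2 z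
                    omega
                  · rw [if_neg hzF, Finset.card_singleton]
                    exact Nat.one_le_pow _ _ (by omega)
              _ = C0.card * (A + 1) ^ j := by rw [Finset.sum_const, smul_eq_mul]
              _ ≤ A * (A + 1) ^ j := Nat.mul_le_mul_right _ (by rw [hA]; exact hC1)
          have h5 : 1 ≤ (A + 1) ^ j := Nat.one_le_pow _ _ (by omega)
          calc _ ≤ A * (A + 1) ^ j + (A + 1) ^ j := by omega
            _ = (A + 1) ^ (j + 1) := by ring
        · intro s p hd hcp
          have h4 := hC2 (out p \ c) ⟨s, p, hd, fun w => by rw [Finset.mem_sdiff]⟩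
          rw [Finset.not_disjoint_iff] at h4
          obtain ⟨w, hw1, hw2⟩ := h4
          rw [Finset.mem_sdiff] at hw1
          by_cases hwF : w ∈ F
          · obtain ⟨w', h5, h6⟩ := h3 w hwF hw1.2 s p hd (Finset.insert_subset hw1.1 hcp)
            refine ⟨w', h5, Finset.mem_biUnion.2 ⟨w, hw2, ?_⟩⟩
            rw [if_pos hwF]
            exact h6
          · refine ⟨w, hw1.1, Finset.mem_biUnion.2 ⟨w, hw2, ?_⟩⟩
            rw [if_neg hwF]
            exact Finset.mem_singleton_self w
  obtain ⟨C, h1, h2, h3⟩ := claim r ∅ (Finset.empty_subset _) (by simp)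
  refine ⟨C, h1, ?_, fun s p hd => h3 s p hd (Finset.empty_subset _)⟩
  rw [← hA]
  omega

end Pool.Agent.Helper38.MC
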