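import Pool.Agent.Helper38.MC.P2

/-!
# Model counts for all arities, P4: exchange of translates
-/

set_option autoImplicit false

namespace Pool.Agent.Helper38.MC

open FirstOrder Pool.Agent.Helper20.Spectra Pool.Agent.Helper58.QD
open Pool.Agent.Helper31.QD Pool.Agent.Helper40.MC

open Classical in
/-- the elements of `G` fixing `A` -/
noncomputable def GS {V : Type} [Fintype V] (G : Subgroup (Equiv.Perm V)) (A : Finset V) :
    Finset (Equiv.Perm V) := Finset.univ.filter fun g : Equiv.Perm V => g ∈ G ∧ ∀ x ∈ A, g x = x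

theorem mem_GS {V : Type} [Fintype V] {G : Subgroup (Equiv.Perm V)} {A : Finset V}
    {g : Equiv.Perm V} : g ∈ GS G A ↔ g ∈ G ∧ ∀ x ∈ A, g x = x := by
  classical
  simp [GS]

theorem GS_mul {V : Type} [Fintype V] {G : Subgroup (Equiv.Perm V)} {A : Finset V}
    {g h : Equiv.Perm V} (hg : g ∈ GS G A) (hh : h ∈ GS G A) : g * h ∈ GS G A := by
  rw [mem_GS] at *
  refine ⟨G.mul_mem hg.1 hh.1, fun x hx => ?_⟩
  rw [Equiv.Perm.mul_apply, hh.2 x hx, hg.2 x hx]

theorem GS_inv {V : Type} [Fintype V] {G : Subgroup (Equiv.Perm V)} {A : Finset V}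
    {g : Equiv.Perm V} (hg : g ∈ GS G A) : g⁻¹ ∈ GS G A := by
  rw [mem_GS] at *
  refine ⟨G.inv_mem hg.1, fun x hx => ?_⟩
  rw [Equiv.Perm.inv_eq_iff_eq, hg.2 x hx]

theorem mem_orb' {V : Type} [Fintype V] {G : Subgroup (Equiv.Perm V)} {A : Finset V} {x y : V} :
    y ∈ orb (G ⊓ fixP (A : Set V)) x ↔ ∃ g ∈ GS G A, g x = y := by
  classical
  unfold orb
  rw [Finset.mem_filter]
  constructor
  · rintro ⟨-, σ, h1, h2⟩
    exact ⟨σ, mem_GS.2 ⟨(Subgroup.mem_inf.1 h1).1, fun x hx => (Subgroup.mem_inf.1 h1).2 x hx⟩, h2⟩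
  · rintro ⟨σ, h1, h2⟩
    rw [mem_GS] at h1
    exact ⟨Finset.mem_univ _, σ, Subgroup.mem_inf.2 ⟨h1.1, fun x hx => h1.2 x hx⟩, h2⟩

open Classical in
/-- few elements map `w` to `z` -/
theorem stab_card {V : Type} [Fintype V] (G : Subgroup (Equiv.Perm V)) (A : Finset V) (w z : V) :
    ((GS G A).filter fun g : Equiv.Perm V => g w = z).card * (orb (G ⊓ fixP (A : Set V)) w).card ≤
      (GS G A).card := by
  by_cases hz : z ∈ orb (G ⊓ fixP (A : Set V)) w
  · obtain ⟨τ, hτ, rfl⟩ := mem_orb'.1 hz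
    have h1 : ∀ y ∈ orb (G ⊓ fixP (A : Set V)) w, ((GS G A).filter fun g : Equiv.Perm V => g w = τ w).card ≤
        ((GS G A).filter fun g : Equiv.Perm V => g w = y).card := by
      intro y hy
      obtain ⟨σ, hσ, rfl⟩ := mem_orb'.1 hy
      apply Finset.card_le_card_of_injOn (fun g => σ * τ⁻¹ * g)
      · intro g hg
        rw [Finset.mem_coe, Finset.mem_filter] at hg
        rw [Finset.mem_coe, Finset.mem_filter]
        refine ⟨GS_mul (GS_mul hσ (GS_inv hτ)) hg.1, ?_⟩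
        rw [Equiv.Perm.mul_apply, hg.2, Equiv.Perm.mul_apply]
        congr 1
        exact τ.symm_apply_apply w
      · intro a _ b _ hab
        exact mul_left_cancel hab
    calc _ = ∑ _y ∈ orb (G ⊓ fixP (A : Set V)) w, ((GS G A).filter fun g : Equiv.Perm V => g w = τ w).card := by
          rw [Finset.sum_const, smul_eq_mul, mul_comm]
      _ ≤ ∑ y ∈ orb (G ⊓ fixP (A : Set V)) w, ((GS G A).filter fun g : Equiv.Perm V => g w = y).card :=
          Finset.sum_le_sum h1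
      _ = ((orb (G ⊓ fixP (A : Set V)) w).biUnion fun y => (GS G A).filter fun g : Equiv.Perm V => g w = y).card := by
          rw [Finset.card_biUnion]
          intro y _ y' _ hne
          rw [Function.onFun, Finset.disjoint_left]
          intro g hg hg'
          exact hne ((Finset.mem_filter.1 hg).2.symm.trans (Finset.mem_filter.1 hg').2)
      _ ≤ (GS G A).card := by
          apply Finset.card_le_card
          intro g hg
          obtain ⟨y, _, hy⟩ := Finset.mem_biUnion.1 hg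
          exact (Finset.mem_filter.1 hy).1
  · have : ((GS G A).filter fun g : Equiv.Perm V => g w = z) = ∅ := by
      rw [Finset.filter_eq_empty_iff]
      intro g hg hgz
      exact hz (mem_orb'.2 ⟨g, hg, hgz⟩)
    rw [this, Finset.card_empty, zero_mul]
    exact Nat.zero_le _

/-- a permutation acting on a pattern -/
def mvp {V : Type} {k m : ℕ} (g : V → V) (p : Fin m → V ⊕ Fin k) : Fin m → V ⊕ Fin k :=
  fun i => Sum.map g id (p i)

theorem ev_mvp {V : Type} {k m : ℕ} (g : Equiv.Perm V) (u : Fin k → V) (p : Fin m → V ⊕ Fin k) :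
    ev (g ∘ u) (mvp g p) = g ∘ ev u p := by
  funext i
  show Sum.elim id (g ∘ u) (Sum.map g id (p i)) = g (Sum.elim id u (p i))
  rcases p i with w | a <;> rfl

theorem R_mvp {S : Type} {ar : S → ℕ} {V : Type} {k : ℕ} {R : Interp S ar V} {g : Equiv.Perm V}
    (hg : g ∈ AuG R) (u : Fin k → V) {s : S} (p : Fin (ar s) → V ⊕ Fin k) :
    R s (ev (g ∘ u) (mvp g p)) ↔ R s (ev u p) := by
  rw [ev_mvp]
  exact hg s (ev u p)

theorem mem_out_mvp {V : Type} [Fintype V] {k m : ℕ} {g : Equiv.Perm V} {p : Fin m → V ⊕ Fin k}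
    {z : V} : z ∈ out (mvp g p) ↔ ∃ w ∈ out p, g w = z := by
  rw [mem_out]
  constructor
  · rintro ⟨i, hi⟩
    have hi' : Sum.map g id (p i) = Sum.inl z := hi
    rcases e : p i with w | a
    · rw [e] at hi'
      exact ⟨w, mem_out.2 ⟨i, e⟩, Sum.inl_injective hi'⟩
    · rw [e] at hi'
      exact absurd hi' (by simp)
  · rintro ⟨w, hw, rfl⟩
    obtain ⟨i, hi⟩ := mem_out.1 hw
    refine ⟨i, ?_⟩
    show Sum.map g id (p i) = _
    rw [hi]
    rfl

open Classical in
/-- the majority lemma -/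
theorem majority {V : Type} [Fintype V] {S : Type} {ar : S → ℕ} {R : Interp S ar V}
    {r k l T : ℕ} {P F A : Finset V} {u : Fin k → V} (har : ∀ s, ar s ≤ r) (hP : HitP R r k l P)
    (hPF : P ⊆ F) (hFA : F ⊆ A) (hA : Closed (AuG R) T A)
    (hT : 2 * (r * (r * l ^ r + 1) ^ r) ≤ T) (hu : ∀ x, x ∈ A ↔ x ∈ F ∨ ∃ a, u a = x)
    (s : S) (p : Fin (ar s) → V ⊕ Fin k) (hp : ∀ w ∈ out p, ∀ a, u a ∉ F → u a ≠ w) :
    2 * ((GS (AuG R) F).filter fun h : Equiv.Perm V => Dis R u (h ∘ u) s p).card < (GS (AuG R) F).card := by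
  obtain ⟨b, hb⟩ : ∃ b, b = ((GS (AuG R) F).filter fun h : Equiv.Perm V => Dis R u (h ∘ u) s p).card := ⟨_, rfl⟩
  obtain ⟨B, hB⟩ : ∃ B, B = (r * l ^ r + 1) ^ r := ⟨_, rfl⟩
  rw [← hB] at hT
  have hsub : ∀ g ∈ GS (AuG R) A, g ∈ GS (AuG R) F := fun g hg =>
    mem_GS.2 ⟨(mem_GS.1 hg).1, fun x hx => (mem_GS.1 hg).2 x (hFA hx)⟩
  -- the number does not change when `p` is moved
  have h1 : ∀ g ∈ GS (AuG R) A,
      ((GS (AuG R) F).filter fun h : Equiv.Perm V => Dis R u (h ∘ u) s (mvp g p)).card = b := by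
    intro g hg
    rw [hb]
    have hgG : g ∈ AuG R := (mem_GS.1 hg).1
    have hgu : g ∘ u = u := by
      funext a
      exact (mem_GS.1 hg).2 (u a) ((hu _).2 (Or.inr ⟨a, rfl⟩))
    have key : ∀ h : Equiv.Perm V, Dis R u ((g * h : Equiv.Perm V) ∘ u) s (mvp g p) ↔
        Dis R u (h ∘ u) s p := by
      intro h
      unfold Dis
      have e1 := R_mvp hgG u p
      rw [hgu] at e1
      have e2 := R_mvp hgG (h ∘ u) p
      rw [e1]
      have e3 : ((g * h : Equiv.Perm V) ∘ u) = g ∘ (h ∘ u) := rfl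
      rw [e3, e2]
    apply Finset.card_bij' (fun h _ => g⁻¹ * h) (fun h _ => g * h)
    · intro h hh
      rw [Finset.mem_filter] at hh ⊢
      refine ⟨GS_mul (GS_inv (hsub g hg)) hh.1, ?_⟩
      rw [← key, mul_inv_cancel_left]
      exact hh.2
    · intro h hh
      rw [Finset.mem_filter] at hh ⊢
      exact ⟨GS_mul (hsub g hg) hh.1, (key h).2 hh.2⟩
    · intro h _
      exact mul_inv_cancel_left g h
    · intro h _
      exact inv_mul_cancel_left g h
  -- for a fixed `h`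
  have h2 : ∀ h ∈ GS (AuG R) F,
      ((GS (AuG R) A).filter fun g : Equiv.Perm V => Dis R u (h ∘ u) s (mvp g p)).card * (T + 1) ≤
        r * B * (GS (AuG R) A).card := by
    intro h hh
    obtain ⟨C, hC1, hC2, hC3⟩ := stmtP2 V S ar R r k l P F har hP hPF h (mem_GS.1 hh).1
      (mem_GS.1 hh).2 u
    rw [← hB] at hC2
    have h3 : ((GS (AuG R) A).filter fun g : Equiv.Perm V => Dis R u (h ∘ u) s (mvp g p)) ⊆
        (((out p).filter fun w => w ∉ A) ×ˢ C).biUnion
          fun q => (GS (AuG R) A).filter fun g : Equiv.Perm V => g q.1 = q.2 := by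
      intro g hg
      rw [Finset.mem_filter] at hg
      obtain ⟨z, hz1, hz2⟩ := hC3 s (mvp g p) hg.2
      obtain ⟨w, hw1, hw2⟩ := mem_out_mvp.1 hz1
      rw [Finset.mem_biUnion]
      refine ⟨(w, z), Finset.mem_product.2 ⟨Finset.mem_filter.2 ⟨hw1, ?_⟩, hz2⟩,
        Finset.mem_filter.2 ⟨hg.1, hw2⟩⟩
      intro hwA
      have hwF : w ∉ F := by
        intro hwF
        have h4 : g w = w := (mem_GS.1 hg.1).2 w hwA
        rw [h4] at hw2
        exact hC1 z hz2 (hw2 ▸ hwF)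
      rcases (hu w).1 hwA with h5 | ⟨a, ha⟩
      · exact hwF h5
      · exact hp w hw1 a (by rw [ha]; exact hwF) ha
    have h4 : (((GS (AuG R) A).filter fun g : Equiv.Perm V => Dis R u (h ∘ u) s (mvp g p)).card) * (T + 1) ≤
        ∑ q ∈ ((out p).filter fun w => w ∉ A) ×ˢ C, (GS (AuG R) A).card := by
      calc _ ≤ (∑ q ∈ ((out p).filter fun w => w ∉ A) ×ˢ C,
            ((GS (AuG R) A).filter fun g : Equiv.Perm V => g q.1 = q.2).card) * (T + 1) :=
            Nat.mul_le_mul_right _ ((Finset.card_le_card h3).trans Finset.card_biUnion_le)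
        _ = ∑ q ∈ ((out p).filter fun w => w ∉ A) ×ˢ C,
            ((GS (AuG R) A).filter fun g : Equiv.Perm V => g q.1 = q.2).card * (T + 1) := Finset.sum_mul _ _ _
        _ ≤ _ := by
            refine Finset.sum_le_sum fun q hq => ?_
            have h5 := hA q.1 (Finset.mem_filter.1 (Finset.mem_product.1 hq).1).2
            exact (Nat.mul_le_mul_left _ h5).trans (stab_card (AuG R) A q.1 q.2)
    refine h4.trans ?_
    rw [Finset.sum_const, smul_eq_mul, Finset.card_product]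
    apply Nat.mul_le_mul_right
    exact Nat.mul_le_mul ((Finset.card_le_card (Finset.filter_subset _ _)).trans
      ((card_out p).trans (har s))) hC2
  -- double counting
  have h3 : ∑ g ∈ GS (AuG R) A, ((GS (AuG R) F).filter fun h : Equiv.Perm V => Dis R u (h ∘ u) s (mvp g p)).card =
      ∑ h ∈ GS (AuG R) F, ((GS (AuG R) A).filter fun g : Equiv.Perm V => Dis R u (h ∘ u) s (mvp g p)).card := by
    simp only [Finset.card_filter]
    exact Finset.sum_comm
  rw [Finset.sum_congr rfl h1, Finset.sum_const, smul_eq_mul] at h3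
  have h4 : (GS (AuG R) A).card * b * (T + 1) ≤ (GS (AuG R) F).card * (r * B * (GS (AuG R) A).card) := by
    rw [h3, Finset.sum_mul]
    calc _ ≤ ∑ _h ∈ GS (AuG R) F, r * B * (GS (AuG R) A).card := Finset.sum_le_sum h2
      _ = _ := by rw [Finset.sum_const, smul_eq_mul]
  have hpos : 0 < (GS (AuG R) A).card := Finset.card_pos.2 ⟨1, mem_GS.2 ⟨(AuG R).one_mem, fun _ _ => rfl⟩⟩
  have hpos' : 0 < (GS (AuG R) F).card := Finset.card_pos.2 ⟨1, mem_GS.2 ⟨(AuG R).one_mem, fun _ _ => rfl⟩⟩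
  have h5 : b * (T + 1) ≤ (GS (AuG R) F).card * (r * B) := by
    refine Nat.le_of_mul_le_mul_left (c := (GS (AuG R) A).card) ?_ hpos
    calc _ = (GS (AuG R) A).card * b * (T + 1) := by ring
      _ ≤ _ := h4
      _ = _ := by ring
  rw [← hb]
  have h6 : 2 * b * (T + 1) < (GS (AuG R) F).card * (T + 1) := by
    calc 2 * b * (T + 1) = 2 * (b * (T + 1)) := by ring
      _ ≤ 2 * ((GS (AuG R) F).card * (r * B)) := Nat.mul_le_mul_left _ h5
      _ = (GS (AuG R) F).card * (2 * (r * B)) := by ring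
      _ ≤ (GS (AuG R) F).card * T := Nat.mul_le_mul_left _ hT
      _ < _ := Nat.mul_lt_mul_of_pos_left (Nat.lt_succ_self T) hpos'
  exact lt_of_mul_lt_mul_right h6 (Nat.zero_le _)

open Classical in
theorem majority' {V : Type} [Fintype V] {S : Type} {ar : S → ℕ} {R : Interp S ar V}
    {r k l T : ℕ} {P F A : Finset V} {u : Fin k → V} (har : ∀ s, ar s ≤ r) (hP : HitP R r k l P)
    (hPF : P ⊆ F) (hFA : F ⊆ A) (hA : Closed (AuG R) T A)
    (hT : 2 * (r * (r * l ^ r + 1) ^ r) ≤ T) (hu : ∀ x, x ∈ A ↔ x ∈ F ∨ ∃ a, u a = x)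
    {h₁ : Equiv.Perm V} (hh : h₁ ∈ GS (AuG R) F)
    (s : S) (p : Fin (ar s) → V ⊕ Fin k) (hp : ∀ w ∈ out p, ∀ a, u a ∉ F → h₁ (u a) ≠ w) :
    2 * ((GS (AuG R) F).filter fun h : Equiv.Perm V => ¬ (R s (ev (h₁ ∘ u) p) ↔ R s (ev (h ∘ u) p))).card <
      (GS (AuG R) F).card := by
  have h1 := majority har hP hPF hFA hA hT hu s (mvp h₁.symm p) (by
    intro w hw a ha hw'
    obtain ⟨z, hz1, hz2⟩ := mem_out_mvp.1 hw
    refine hp z hz1 a ha ?_
    rw [hw', ← hz2]
    exact h₁.apply_symm_apply z)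
  have hinv : h₁.symm ∈ AuG R := (AuG R).inv_mem (mem_GS.1 hh).1
  have key : ∀ h : Equiv.Perm V, Dis R u (h ∘ u) s (mvp h₁.symm p) ↔
      ¬ (R s (ev (h₁ ∘ u) p) ↔ R s (ev ((h₁ * h : Equiv.Perm V) ∘ u) p)) := by
    intro h
    unfold Dis
    have e1 := R_mvp hinv (h₁ ∘ u) p
    have e2 := R_mvp hinv ((h₁ * h : Equiv.Perm V) ∘ u) p
    have e3 : h₁.symm ∘ (h₁ ∘ u) = u := by
      funext a
      exact h₁.symm_apply_apply (u a)
    have e4 : h₁.symm ∘ ((h₁ * h : Equiv.Perm V) ∘ u) = h ∘ u := by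
      funext a
      exact h₁.symm_apply_apply (h (u a))
    rw [e3] at e1
    rw [e4] at e2
    rw [e1, e2]
  have e : ((GS (AuG R) F).filter fun h : Equiv.Perm V => ¬ (R s (ev (h₁ ∘ u) p) ↔ R s (ev (h ∘ u) p))).card =
      ((GS (AuG R) F).filter fun h : Equiv.Perm V => Dis R u (h ∘ u) s (mvp h₁.symm p)).card := by
    apply Finset.card_bij' (fun h _ => h₁⁻¹ * h) (fun h _ => h₁ * h)
    · intro h hh'
      rw [Finset.mem_filter] at hh' ⊢
      refine ⟨GS_mul (GS_inv hh) hh'.1, ?_⟩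
      rw [key, mul_inv_cancel_left]
      exact hh'.2
    · intro h hh'
      rw [Finset.mem_filter] at hh' ⊢
      exact ⟨GS_mul hh hh'.1, (key h).1 hh'.2⟩
    · intro h _
      exact mul_inv_cancel_left h₁ h
    · intro h _
      exact inv_mul_cancel_left h₁ h
  rw [e]
  exact h1

theorem stmtP4 : StmtP4 := by
  classical
  intro V _ S ar R r k l T P F A u har hP hPF hFA hA hT hu h₁ hh₁ h₂ hh₂ hF1 hF2 s p hp
  have m1 := majority' har hP hPF hFA hA hT hu (mem_GS.2 ⟨hh₁, hF1⟩) s p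
    (fun w hw a ha => (hp w hw a ha).1)
  have m2 := majority' har hP hPF hFA hA hT hu (mem_GS.2 ⟨hh₂, hF2⟩) s p
    (fun w hw a ha => (hp w hw a ha).2)
  by_contra hcon
  have h3 : (GS (AuG R) F) ⊆
      ((GS (AuG R) F).filter fun h : Equiv.Perm V => ¬ (R s (ev (h₁ ∘ u) p) ↔ R s (ev (h ∘ u) p))) ∪
      ((GS (AuG R) F).filter fun h : Equiv.Perm V => ¬ (R s (ev (h₂ ∘ u) p) ↔ R s (ev (h ∘ u) p))) := by
    intro h hh
    rw [Finset.mem_union, Finset.mem_filter, Finset.mem_filter]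
    by_cases hc : R s (ev (h₁ ∘ u) p) ↔ R s (ev (h ∘ u) p)
    · right
      exact ⟨hh, fun hc' => hcon (hc.trans hc'.symm)⟩
    · exact Or.inl ⟨hh, hc⟩
  have h4 := (Finset.card_le_card h3).trans (Finset.card_union_le _ _)
  omega

end Pool.Agent.Helper38.MC
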