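import Pool.Agent.Helper38.MC.Pump
import Pool.Agent.Helper38.MC.Hit
import Pool.Agent.Helper40.MC.Defs

/-!
# Model counts: StmtPump and StmtHit
-/

set_option autoImplicit false

namespace Pool.Agent.Helper38.MC

open FirstOrder FirstOrder.Language Pool.Agent.Helper20.Spectra Pool.Agent.Helper58.QD
open Pool.Agent.Helper31.QD Pool.Agent.Helper38.QD Pool.Agent.Helper40.MC

theorem au_of_bin {S : Type} {ar : S → ℕ} (har : ∀ s, ar s ≤ 2) {M : Type} [Nonempty M]
    {R : Interp S ar M} {σ : Equiv.Perm M} (h : σ ∈ AutQ (bin R)) : Au R σ := by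
  intro s t
  obtain ⟨x, y, rfl⟩ : ∃ x y : M, t = fun i : Fin (ar s) => if (i : ℕ) = 0 then x else y := by
    have z : M := Classical.arbitrary M
    refine ⟨if h0 : 0 < ar s then t ⟨0, h0⟩ else z, if h1 : 1 < ar s then t ⟨1, h1⟩ else z, ?_⟩
    funext i
    have hi := i.is_lt
    have h2 := har s
    by_cases h0 : (i : ℕ) = 0
    · rw [if_pos h0, dif_pos (by omega)]
      congr 1
      exact Fin.ext h0
    · rw [if_neg h0, dif_pos (by omega)]
      congr 1
      apply Fin.ext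
      show (i : ℕ) = 1
      omega
  have h1 := h s x y
  have e : (σ ∘ fun i : Fin (ar s) => if (i : ℕ) = 0 then x else y) =
      fun i : Fin (ar s) => if (i : ℕ) = 0 then σ x else σ y := by
    funext i
    show σ (if (i : ℕ) = 0 then x else y) = _
    split <;> rfl
  rw [e]
  exact h1

theorem hom_block {S V : Type} {Q : S → V → V → Prop} {t q : ℕ} {f : Fin q → Fin t → V}
    (h2 : ∀ s i i' a w, (∀ j b, w ≠ f j b) →
      ((Q s (f i a) w ↔ Q s (f i' a) w) ∧ (Q s w (f i a) ↔ Q s w (f i' a))))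
    (h3 : ∀ s i i' a b, Q s (f i a) (f i b) ↔ Q s (f i' a) (f i' b))
    (h4 : ∀ s i j i' j' a b, i ≠ j → i' ≠ j' → (Q s (f i a) (f j b) ↔ Q s (f i' a) (f j' b)))
    (π : Equiv.Perm (Fin q)) (σ : Equiv.Perm V) (hσ : ∀ i a, σ (f i a) = f (π i) a)
    (hσ' : ∀ z, (∀ i a, f i a ≠ z) → σ z = z) : σ ∈ AutQ Q := by
  intro s x y
  by_cases hx : ∃ i a, f i a = x
  · obtain ⟨i, a, rfl⟩ := hx
    by_cases hy : ∃ i a, f i a = y
    · obtain ⟨j, b, rfl⟩ := hy
      rw [hσ, hσ]
      by_cases hij : i = j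
      · subst hij
        exact h3 s _ _ a b
      · exact h4 s _ _ _ _ a b (fun h => hij (π.injective h)) hij
    · push Not at hy
      rw [hσ, hσ' y hy]
      exact (h2 s _ _ a y (fun j b h => hy j b h.symm)).1
  · push Not at hx
    by_cases hy : ∃ i a, f i a = y
    · obtain ⟨j, b, rfl⟩ := hy
      rw [hσ, hσ' x hx]
      exact (h2 s _ _ b x (fun j b h => hx j b h.symm)).2
    · push Not at hy
      rw [hσ' x hx, hσ' y hy]

theorem stmtPump : StmtPump := by
  intro S _ ar χ har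
  refine ⟨qd χ + 1, fun n R hM t ht ⟨f, h1, h2, h3, h4⟩ j => ?_⟩
  have hn : Nonempty (Fin n) := ⟨f ⟨0, by omega⟩ ⟨0, by omega⟩⟩
  have hn' : 1 ≤ n := by
    have := (f ⟨0, by omega⟩ ⟨0, by omega⟩).is_lt
    omega
  refine ⟨by omega, ?_⟩
  refine pump χ (q := qd χ + 1) (t := t) R hM (by omega) (by omega) (fun p => f p.1 p.2) ?_ ?_ j
  · intro p p' hpp
    have := h1 _ _ _ _ hpp
    exact Prod.ext this.1 this.2
  · intro π σ hσ hσ'
    exact au_of_bin har (hom_block h2 h3 h4 π σ hσ (fun z hz => hσ' z (fun p => hz p.1 p.2)))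

theorem stmtHit : StmtHit := by
  classical
  intro V ι _ _ _ D L j hD h
  obtain ⟨P, hP, hP'⟩ := hit_family D L j Finset.univ (fun i _ => (hD i).le) (by
    rw [Finset.card_univ]
    exact h)
  exact ⟨P, hP, fun i => hP' i (Finset.mem_univ _)⟩

end Pool.Agent.Helper38.MC
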